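import Pool.Agent.Lib.MP_2fd4e2_co.Typ.Exc

/-!
Two overlapping discs in the complement of a Jordan curve that touch it at different points.
-/

set_option autoImplicit false

namespace Pool.Agent.Typ

open Complex Set Filter Topology Metric

theorem ball_punct (q : ℂ) (r : ℝ) : IsPreconnected (ball q r \ {q}) := by
  rcases le_or_gt r 0 with hr | hr
  · rw [ball_eq_empty.mpr hr]; simpa using isPreconnected_empty
  set g : ℂ → ℂ := fun y => q + ((r / (1 + ‖y‖) : ℝ) : ℂ) * y with hg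
  have hgc : Continuous g := by
    have : Continuous (fun y : ℂ => r / (1 + ‖y‖)) := by
      apply Continuous.div continuous_const (by fun_prop)
      intro y
      positivity
    exact continuous_const.add ((Complex.continuous_ofReal.comp this).mul continuous_id)
  have h1 : IsConnected ({0}ᶜ : Set ℂ) :=
    isConnected_compl_singleton_of_one_lt_rank (by rw [Complex.rank_real_complex]; norm_num) 0
  have h2 : g '' {0}ᶜ = ball q r \ {q} := by
    apply Subset.antisymm
    · rintro _ ⟨y, hy, rfl⟩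
      have hy0 : 0 < ‖y‖ := norm_pos_iff.mpr hy
      have hpos : 0 < r / (1 + ‖y‖) := by positivity
      constructor
      · rw [mem_ball, dist_eq_norm]
        simp only [hg]
        rw [add_sub_cancel_left, norm_mul, Complex.norm_real, Real.norm_eq_abs, abs_of_pos hpos,
          div_mul_eq_mul_div, div_lt_iff₀ (by positivity)]
        nlinarith
      · intro h
        have h3 : ((r / (1 + ‖y‖) : ℝ) : ℂ) * y = 0 := by
          have : q + ((r / (1 + ‖y‖) : ℝ) : ℂ) * y = q := h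
          simpa using this
        rcases mul_eq_zero.mp h3 with h4 | h4
        · have : (r / (1 + ‖y‖) : ℝ) = 0 := by exact_mod_cast h4
          linarith
        · exact hy h4
    · rintro z ⟨hz, hzq⟩
      rw [mem_ball, dist_eq_norm] at hz
      have hzq' : z - q ≠ 0 := sub_ne_zero.mpr hzq
      have hd : 0 < r - ‖z - q‖ := by linarith
      refine ⟨((1 / (r - ‖z - q‖) : ℝ) : ℂ) * (z - q), ?_, ?_⟩
      · apply mul_ne_zero _ hzq'
        have : (1 / (r - ‖z - q‖) : ℝ) ≠ 0 := by positivity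
        exact_mod_cast this
      · simp only [hg]
        rw [norm_mul, Complex.norm_real, Real.norm_eq_abs, abs_of_pos (by positivity)]
        have e : (r / (1 + 1 / (r - ‖z - q‖) * ‖z - q‖) : ℝ) = r - ‖z - q‖ := by
          field_simp
          ring
        rw [e, ← mul_assoc, ← Complex.ofReal_mul]
        have e2 : (r - ‖z - q‖) * (1 / (r - ‖z - q‖)) = 1 := by field_simp
        rw [e2]
        simp
  rw [← h2]
  exact (h1.image g hgc.continuousOn).isPreconnected

theorem exists_near {c : ℝ → ℂ} (hc : Continuous c) (t : ℝ) {b : ℝ} (hb : t < b) {ρ : ℝ}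
    (hρ : 0 < ρ) : ∃ s ∈ Ioo t b, ‖c s - c t‖ < ρ := by
  have h1 : Tendsto c (𝓝[>] t) (𝓝 (c t)) := (hc.tendsto t).mono_left nhdsWithin_le_nhds
  have h2 : ∀ᶠ s in 𝓝[>] t, ‖c s - c t‖ < ρ := by
    have := h1.eventually (ball_mem_nhds (c t) hρ)
    filter_upwards [this] with s hs
    rwa [dist_eq_norm] at hs
  obtain ⟨s, hs1, hs2⟩ := (h2.and (Ioo_mem_nhdsGT hb)).exists
  exact ⟨s, hs2, hs1⟩

theorem exists_near' {c : ℝ → ℂ} (hc : Continuous c) (t : ℝ) {a : ℝ} (ha : a < t) {ρ : ℝ}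
    (hρ : 0 < ρ) : ∃ s ∈ Ioo a t, ‖c s - c t‖ < ρ := by
  have h1 : Tendsto c (𝓝[<] t) (𝓝 (c t)) := (hc.tendsto t).mono_left nhdsWithin_le_nhds
  have h2 : ∀ᶠ s in 𝓝[<] t, ‖c s - c t‖ < ρ := by
    have := h1.eventually (ball_mem_nhds (c t) hρ)
    filter_upwards [this] with s hs
    rwa [dist_eq_norm] at hs
  obtain ⟨s, hs1, hs2⟩ := (h2.and (Ioo_mem_nhdsLT ha)).exists
  exact ⟨s, hs2, hs1⟩

theorem exists_discs (f : C(UnitAddCircle, ℂ)) (hf : Function.Injective f) {a b : ℝ} (hab : a < b)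
    (hb : b < a + 1) {ε : ℝ} (hε : 0 < ε) :
    ∃ s0 ∈ Ioo a b, ∃ s1 ∈ Ioo a b, s0 ≠ s1 ∧ ∃ (w0 w1 y : ℂ) (r0 r1 : ℝ),
      ‖f (s0 : UnitAddCircle) - w0‖ ≤ r0 ∧ ‖f (s1 : UnitAddCircle) - w1‖ ≤ r1 ∧
      ‖y - w0‖ < r0 ∧ ‖y - w1‖ < r1 ∧
      ∀ z : ℂ, ‖z - w0‖ < r0 ∨ ‖z - w1‖ < r1 →
        z ∉ range f ∧ ‖z - f (((a + b) / 2 : ℝ) : UnitAddCircle)‖ < ε := by
  set c : ℝ → ℂ := fun s => f (s : UnitAddCircle) with hc
  have hcc : Continuous c := f.continuous.comp (AddCircle.continuous_mk' 1)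
  have hinj : ∀ s ∈ Icc a b, ∀ s' ∈ Icc a b, c s = c s' → s = s' := by
    intro s hs s' hs' h
    have h1 : (s : UnitAddCircle) = (s' : UnitAddCircle) := hf h
    have := (AddCircle.coe_eq_coe_iff_of_mem_Ico (p := (1 : ℝ)) (a := a)
      (⟨hs.1, by linarith [hs.2]⟩ : s ∈ Ico a (a + 1))
      (⟨hs'.1, by linarith [hs'.2]⟩ : s' ∈ Ico a (a + 1))).mp h1
    exact this
  set J : Set ℂ := range f with hJ
  have hJc : IsCompact J := isCompact_range f.continuous
  have hJcl : IsClosed J := hJc.isClosed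
  have hJn : J.Nonempty := range_nonempty _
  have hcJ : ∀ s, c s ∈ J := fun s => mem_range_self _
  set t := (a + b) / 2 with ht
  have hat : a < t := by rw [ht]; linarith
  have htb : t < b := by rw [ht]; linarith
  set p := c t with hp
  set Arc : Set UnitAddCircle := (fun s : ℝ => (s : UnitAddCircle)) '' Ioo a b with hArc
  have hArcO : IsOpen Arc := QuotientAddGroup.isOpenMap_coe _ isOpen_Ioo
  have hKc : IsClosed (f '' Arcᶜ) := (hArcO.isClosed_compl.isCompact.image f.continuous).isClosed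
  have hpK : p ∉ f '' Arcᶜ := by
    rintro ⟨x, hx, hxp⟩
    have : x = (t : UnitAddCircle) := hf hxp
    exact hx ⟨t, ⟨hat, htb⟩, this.symm⟩
  obtain ⟨δ', hδ', hball⟩ := Metric.isOpen_iff.mp hKc.isOpen_compl p hpK
  set δ := min δ' ε with hδdef
  have hδ : 0 < δ := lt_min hδ' hε
  have hδJ : ∀ z ∈ J, ‖z - p‖ < δ → ∃ s ∈ Ioo a b, z = c s := by
    rintro z ⟨x, rfl⟩ hz
    have h1 : f x ∈ ball p δ' := by
      rw [mem_ball, dist_eq_norm]
      exact hz.trans_le (min_le_left _ _)
    have h2 : x ∈ Arc := by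
      by_contra h
      exact hball h1 ⟨x, h, rfl⟩
    obtain ⟨s, hs, rfl⟩ := h2
    exact ⟨s, hs, rfl⟩
  -- the curve has empty interior near `p`
  have claim1 : ∀ ρ > 0, ∃ w, ‖w - p‖ < ρ ∧ w ∉ J := by
    intro ρ hρ
    by_contra hcon
    push Not at hcon
    set ρ' := min ρ δ with hρ'
    have hρ'0 : 0 < ρ' := lt_min hρ hδ
    have hS := ball_punct p ρ'
    rw [isPreconnected_iff_subset_of_disjoint_closed] at hS
    have hsub := hS (c '' Icc a t) (c '' Icc t b)
      (isCompact_Icc.image hcc).isClosed (isCompact_Icc.image hcc).isClosed (by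
        rintro w ⟨hw, _⟩
        rw [mem_ball, dist_eq_norm] at hw
        have h1 := hcon w (hw.trans_le (min_le_left _ _))
        obtain ⟨s, hs, rfl⟩ := hδJ w h1 (hw.trans_le (min_le_right _ _))
        rcases le_or_gt s t with h2 | h2
        · left; exact ⟨s, ⟨hs.1.le, h2⟩, rfl⟩
        · right; exact ⟨s, ⟨h2.le, hs.2.le⟩, rfl⟩) (by
        rw [eq_empty_iff_forall_notMem]
        rintro w ⟨⟨_, hw⟩, ⟨s, hs, hsw⟩, ⟨s', hs', hs'w⟩⟩
        have h1 : s = s' := hinj s ⟨hs.1, by linarith [hs.2]⟩ s' ⟨by linarith [hs'.1], hs'.2⟩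
          (hsw.trans hs'w.symm)
        have h2 : s = t := le_antisymm hs.2 (h1 ▸ hs'.1)
        apply hw
        rw [← hsw, h2]
        rfl)
    rcases hsub with h | h
    · obtain ⟨s, hs, hsn⟩ := exists_near hcc t htb hρ'0
      have h1 : c s ∈ ball p ρ' \ {p} := by
        refine ⟨by rwa [mem_ball, dist_eq_norm], ?_⟩
        intro h2
        have := hinj s ⟨by linarith [hs.1], hs.2.le⟩ t ⟨hat.le, htb.le⟩ h2
        linarith [hs.1]
      obtain ⟨s', hs', h3⟩ := h h1
      have := hinj s' ⟨hs'.1, by linarith [hs'.2]⟩ s ⟨by linarith [hs.1], hs.2.le⟩ h3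
      linarith [hs.1, hs'.2]
    · obtain ⟨s, hs, hsn⟩ := exists_near' hcc t hat hρ'0
      have h1 : c s ∈ ball p ρ' \ {p} := by
        refine ⟨by rwa [mem_ball, dist_eq_norm], ?_⟩
        intro h2
        have := hinj s ⟨hs.1.le, by linarith [hs.2]⟩ t ⟨hat.le, htb.le⟩ h2
        linarith [hs.2]
      obtain ⟨s', hs', h3⟩ := h h1
      have := hinj s' ⟨by linarith [hs'.1], hs'.2⟩ s ⟨hs.1.le, by linarith [hs.2]⟩ h3
      linarith [hs.2, hs'.1]
  -- two different nearest points
  have claim2 : ∃ w w' q q' : ℂ, ‖w - p‖ < δ / 2 ∧ ‖w' - p‖ < δ / 2 ∧ w ∉ J ∧ w' ∉ J ∧ q ∈ J ∧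
      q' ∈ J ∧ infDist w J = dist w q ∧ infDist w' J = dist w' q' ∧
      (ball w (infDist w J) ∩ ball w' (infDist w' J)).Nonempty ∧ q ≠ q' := by
    by_contra hcon
    push Not at hcon
    obtain ⟨w, hw, hwJ⟩ := claim1 (δ / 6) (by positivity)
    obtain ⟨q, hqJ, hq⟩ := hJc.exists_infDist_eq_dist hJn w
    have hwp : infDist w J ≤ dist w p := infDist_le_dist_of_mem (hcJ t)
    rw [dist_eq_norm] at hwp
    have hwq : dist w q < δ / 6 := by rw [← hq]; linarith
    have hqp : ‖q - p‖ < δ / 3 := by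
      have : q - p = -(w - q) + (w - p) := by ring
      rw [this]
      refine (norm_add_le _ _).trans_lt ?_
      rw [norm_neg, ← dist_eq_norm w q]
      linarith
    have hBp : ∀ z ∈ ball q (δ / 6), ‖z - p‖ < δ / 2 := by
      intro z hz
      rw [mem_ball, dist_eq_norm] at hz
      have : z - p = (z - q) + (q - p) := by ring
      rw [this]
      refine (norm_add_le _ _).trans_lt ?_
      linarith
    have hpos : ∀ z, z ∉ J → 0 < infDist z J := fun z hz => (hJcl.notMem_iff_infDist_pos hJn).mp hz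
    set C : Set ℂ := {z | z ∈ ball q (δ / 6) ∧ z ∉ J ∧ infDist z J = dist z q} with hC
    have hCo : IsOpen C := by
      rw [Metric.isOpen_iff]
      rintro z ⟨hz1, hz2, hz3⟩
      obtain ⟨ρ, hρ, hρb⟩ := Metric.isOpen_iff.mp isOpen_ball z hz1
      refine ⟨min ρ (infDist z J), lt_min hρ (hpos z hz2), ?_⟩
      intro z' hz'
      have h1 : z' ∈ ball q (δ / 6) := hρb (ball_subset_ball (min_le_left _ _) hz')
      have h2 : z' ∈ ball z (infDist z J) := ball_subset_ball (min_le_right _ _) hz'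
      have h3 : z' ∉ J := by
        apply notMem_of_dist_lt_infDist (x := z)
        rw [dist_comm]
        exact h2
      obtain ⟨q', hq'J, hq'⟩ := hJc.exists_infDist_eq_dist hJn z'
      have h4 := hcon z z' q q' (hBp z hz1) (hBp z' h1) hz2 h3 hqJ hq'J hz3 hq'
        ⟨z', h2, mem_ball_self (hpos z' h3)⟩
      exact ⟨h1, h3, by rw [h4]; exact hq'⟩
    have hZcl : IsClosed {z : ℂ | infDist z J = dist z q} :=
      isClosed_eq (continuous_infDist_pt J) (continuous_id.dist continuous_const)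
    have hwS : w ∈ ball q (δ / 6) \ {q} := by
      refine ⟨hwq, ?_⟩
      intro h
      have h' : w = q := h
      exact hwJ (h' ▸ hqJ)
    have hwC : w ∈ C := ⟨hwq, hwJ, hq⟩
    have hsub := (ball_punct q (δ / 6)).subset_left_of_subset_union hCo hZcl.isOpen_compl (by
        rw [Set.disjoint_left]
        rintro z ⟨_, _, h3⟩ h4
        exact h4 h3) (by
        rintro z ⟨hz1, hz2⟩
        by_cases h : infDist z J = dist z q
        · left
          refine ⟨hz1, ?_, h⟩
          intro hzJ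
          rw [infDist_zero_of_mem hzJ] at h
          exact hz2 (dist_eq_zero.mp h.symm)
        · right; exact h) ⟨w, hwS, hwC⟩
    obtain ⟨s, hs, hsq⟩ := hδJ q hqJ (by linarith)
    obtain ⟨s', hs', hs'n⟩ := exists_near hcc s hs.2 (show 0 < δ / 6 by positivity)
    have h5 : c s' ∈ ball q (δ / 6) \ {q} := by
      refine ⟨by rw [mem_ball, dist_eq_norm, hsq]; exact hs'n, ?_⟩
      intro h6
      have h6' : c s' = c s := by rw [← hsq]; exact h6
      have := hinj s' ⟨by linarith [hs.1, hs'.1], hs'.2.le⟩ s ⟨hs.1.le, hs.2.le⟩ h6'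
      linarith [hs'.1]
    exact (hsub h5).2.1 (hcJ s')
  obtain ⟨w0, w1, q0, q1, hw0, hw1, hw0J, hw1J, hq0J, hq1J, hd0, hd1, ⟨y, hy0, hy1⟩, hne⟩ := claim2
  have e0 : infDist w0 J < δ / 2 := by
    have : infDist w0 J ≤ dist w0 p := infDist_le_dist_of_mem (hcJ t)
    rw [dist_eq_norm] at this
    linarith
  have e1 : infDist w1 J < δ / 2 := by
    have : infDist w1 J ≤ dist w1 p := infDist_le_dist_of_mem (hcJ t)
    rw [dist_eq_norm] at this
    linarith
  have g0 : ‖q0 - w0‖ = infDist w0 J := by rw [hd0, dist_eq_norm, norm_sub_rev]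
  have g1 : ‖q1 - w1‖ = infDist w1 J := by rw [hd1, dist_eq_norm, norm_sub_rev]
  obtain ⟨s0, hs0, hs0q⟩ := hδJ q0 hq0J (by
    have : q0 - p = (q0 - w0) + (w0 - p) := by ring
    rw [this]
    refine (norm_add_le _ _).trans_lt ?_
    linarith)
  obtain ⟨s1, hs1, hs1q⟩ := hδJ q1 hq1J (by
    have : q1 - p = (q1 - w1) + (w1 - p) := by ring
    rw [this]
    refine (norm_add_le _ _).trans_lt ?_
    linarith)
  refine ⟨s0, hs0, s1, hs1, ?_, w0, w1, y, infDist w0 J, infDist w1 J, ?_, ?_, ?_, ?_, ?_⟩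
  · rintro rfl
    exact hne (hs0q.trans hs1q.symm)
  · show ‖c s0 - w0‖ ≤ _
    rw [← hs0q, g0]
  · show ‖c s1 - w1‖ ≤ _
    rw [← hs1q, g1]
  · rwa [mem_ball, dist_eq_norm] at hy0
  · rwa [mem_ball, dist_eq_norm] at hy1
  · rintro z (hz | hz)
    · constructor
      · apply notMem_of_dist_lt_infDist (x := w0)
        rw [dist_comm, dist_eq_norm]; exact hz
      · show ‖z - p‖ < ε
        have : z - p = (z - w0) + (w0 - p) := by ring
        rw [this]
        refine (norm_add_le _ _).trans_lt ?_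
        have : δ ≤ ε := min_le_right _ _
        linarith
    · constructor
      · apply notMem_of_dist_lt_infDist (x := w1)
        rw [dist_comm, dist_eq_norm]; exact hz
      · show ‖z - p‖ < ε
        have : z - p = (z - w1) + (w1 - p) := by ring
        rw [this]
        refine (norm_add_le _ _).trans_lt ?_
        have : δ ≤ ε := min_le_right _ _
        linarith

end Pool.Agent.Typ
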