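import Pool.Agent.Lib.MP_2fd4e2_co.Typ.Path

/-!
An excursion through two discs that contains the path.
-/

set_option autoImplicit false

namespace Pool.Agent.Typ

open Complex Set Filter Topology

theorem seg_ball {q y w : ℂ} {r x : ℝ} (hq : ‖q - w‖ ≤ r) (hy : ‖y - w‖ < r) (h0 : 0 < x)
    (h1 : x ≤ 1) : ‖q + (y - q) * x - w‖ < r := by
  have e : q + (y - q) * x - w = ((1 - x : ℝ) : ℂ) * (q - w) + (x : ℂ) * (y - w) := by
    push_cast; ring
  rw [e]
  refine (norm_add_le _ _).trans_lt ?_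
  rw [norm_mul, norm_mul, Complex.norm_real, Complex.norm_real, Real.norm_eq_abs,
    Real.norm_eq_abs, abs_of_nonneg (by linarith), abs_of_pos h0]
  nlinarith

theorem excursion {q0 q1 y w0 w1 : ℂ} {r0 r1 : ℝ} (hne : ((q1 - y) / (y - q0)).im ≠ 0)
    (h0 : ‖q0 - w0‖ ≤ r0) (hy0 : ‖y - w0‖ < r0) (h1 : ‖q1 - w1‖ ≤ r1) (hy1 : ‖y - w1‖ < r1)
    {ζ : ℝ → ℂ} {R : ℝ} (hζ : Continuous ζ) (hinj : Function.Injective ζ) (hR : 5 ≤ R)
    (hout : ∀ u, R ≤ |u| → ζ u = u) (hin : ∀ u, |u| ≤ R → ‖ζ u‖ ≤ R) :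
    ∃ (E : ℝ → ℂ) (A B : ℂ) (l : ℝ), A ≠ 0 ∧ 0 < l ∧ l * R ≤ 1 / 4 ∧ Continuous E ∧
      InjOn E (Icc 0 2) ∧ E 0 = q0 ∧ E 2 = q1 ∧
      (∀ x ∈ Ioo (0 : ℝ) 2, ‖E x - w0‖ < r0 ∨ ‖E x - w1‖ < r1) ∧
      ∀ x ≤ (1 : ℝ), E x = B + A * ζ ((x - 1 / 2) / l) := by
  have hyq : y - q0 ≠ 0 := by
    intro h
    rw [h, div_zero] at hne
    exact hne rfl
  set c := (q1 - y) / (y - q0) with hc
  have hc0 : c ≠ 0 := by
    intro h
    rw [h] at hne
    exact hne rfl
  have hq1y : q1 - y = (y - q0) * c := by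
    rw [hc]; field_simp
  have hcn : 0 < ‖c‖ := norm_pos_iff.mpr hc0
  set μ := |c.im| / (2 * ‖c‖) with hμ
  have hμ0 : 0 < μ := by
    have := abs_pos.mpr hne
    positivity
  have hsc : ∀ s : ℝ, μ ≤ ‖(1 / 2 : ℂ) + s * c‖ := by
    intro s
    rw [hμ, div_le_iff₀ (by positivity)]
    have h2 : |(((1 / 2 : ℂ) + s * c) * (starRingEnd ℂ) c).im| ≤
        ‖((1 / 2 : ℂ) + s * c) * (starRingEnd ℂ) c‖ := Complex.abs_im_le_norm _
    rw [norm_mul, RCLike.norm_conj] at h2
    have e : ((1 / 2 : ℂ) + s * c) * (starRingEnd ℂ) c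
        = (1 / 2 : ℂ) * (starRingEnd ℂ) c + s * (Complex.normSq c) := by
      rw [add_mul, mul_assoc (s : ℂ), Complex.mul_conj]
    have e2 : (((1 / 2 : ℂ) + s * c) * (starRingEnd ℂ) c).im = -(c.im / 2) := by
      rw [e]
      have : (s : ℂ) * (Complex.normSq c : ℂ) = ((s * Complex.normSq c : ℝ) : ℂ) := by push_cast; ring
      rw [this, Complex.add_im, Complex.ofReal_im, Complex.mul_im]
      simp
      ring
    rw [e2, abs_neg, abs_div, abs_two] at h2
    linarith
  -- the midpoint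
  have hmid : ‖q0 + (y - q0) * ((1 / 2 : ℝ) : ℂ) - w0‖ < r0 :=
    seg_ball h0 hy0 (by norm_num) (by norm_num)
  set gap := r0 - ‖q0 + (y - q0) * ((1 / 2 : ℝ) : ℂ) - w0‖ with hgap
  have hgap0 : 0 < gap := by rw [hgap]; linarith
  have hyn : 0 < ‖y - q0‖ := norm_pos_iff.mpr hyq
  have hR0 : 0 < R := by linarith
  set l := min (1 / 4) (min (μ / 2) (gap / (2 * ‖y - q0‖))) / R with hl
  have hm0 : 0 < min (1 / 4) (min (μ / 2) (gap / (2 * ‖y - q0‖))) := by positivity
  have hl0 : 0 < l := by positivity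
  have hlR : l * R = min (1 / 4) (min (μ / 2) (gap / (2 * ‖y - q0‖))) := by
    rw [hl]; field_simp
  have b1 : l * R ≤ 1 / 4 := by rw [hlR]; exact min_le_left _ _
  have b2 : l * R < μ := by
    have : l * R ≤ μ / 2 := by
      rw [hlR]; exact (min_le_right _ _).trans (min_le_left _ _)
    linarith
  have b3 : ‖y - q0‖ * (l * R) < gap := by
    have : l * R ≤ gap / (2 * ‖y - q0‖) := by
      rw [hlR]; exact (min_le_right _ _).trans (min_le_right _ _)
    rw [le_div_iff₀ (by positivity)] at this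
    nlinarith
  set Z : ℝ → ℂ := fun x => 1 / 2 + l * ζ ((x - 1 / 2) / l) with hZ
  have hlc : (l : ℂ) ≠ 0 := by exact_mod_cast hl0.ne'
  have hZc : Continuous Z := by
    simp only [hZ]
    refine continuous_const.add (continuous_const.mul (hζ.comp ?_))
    fun_prop
  have hZinj : Function.Injective Z := by
    intro x x' h
    have h2 : ζ ((x - 1 / 2) / l) = ζ ((x' - 1 / 2) / l) := by
      have : (l : ℂ) * ζ ((x - 1 / 2) / l) = l * ζ ((x' - 1 / 2) / l) := add_left_cancel h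
      exact mul_left_cancel₀ hlc this
    have h3 := hinj h2
    have h4 : x - 1 / 2 = x' - 1 / 2 := by
      field_simp at h3
      linarith
    linarith
  have hZo : ∀ x : ℝ, l * R ≤ |x - 1 / 2| → Z x = x := by
    intro x hx
    have h2 : R ≤ |(x - 1 / 2) / l| := by
      rw [abs_div, abs_of_pos hl0, le_div_iff₀ hl0]
      linarith
    simp only [hZ]
    rw [hout _ h2]
    push_cast
    field_simp
    ring
  have hZi : ∀ x : ℝ, |x - 1 / 2| ≤ l * R → ‖Z x - 1 / 2‖ ≤ l * R := by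
    intro x hx
    have h2 : |(x - 1 / 2) / l| ≤ R := by
      rw [abs_div, abs_of_pos hl0, div_le_iff₀ hl0]
      linarith
    have h3 := hin _ h2
    have e : Z x - 1 / 2 = l * ζ ((x - 1 / 2) / l) := by simp only [hZ]; ring
    rw [e, norm_mul, Complex.norm_real, Real.norm_eq_abs, abs_of_pos hl0]
    exact mul_le_mul_of_nonneg_left h3 hl0.le
  have hZ0 : Z 0 = 0 := by
    rw [hZo 0 (by rw [zero_sub, abs_neg, abs_of_pos (by norm_num)]; linarith)]
    simp
  have hZ1 : Z 1 = 1 := by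
    rw [hZo 1 (by rw [abs_of_pos (by norm_num)]; linarith)]
    simp
  set E : ℝ → ℂ := fun x => if x ≤ 1 then q0 + (y - q0) * Z x else y + (q1 - y) * ((x - 1 : ℝ) : ℂ)
    with hE
  have hE1 : ∀ x ≤ (1 : ℝ), E x = q0 + (y - q0) * Z x := fun x hx => if_pos hx
  have hE2 : ∀ x, 1 ≤ x → E x = y + (q1 - y) * ((x - 1 : ℝ) : ℂ) := by
    intro x hx
    rcases hx.eq_or_lt with h | h
    · rw [← h, hE1 1 le_rfl, hZ1]; simp
    · exact if_neg (not_le.mpr h)
  have hEc : Continuous E := by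
    apply Continuous.if_le
    · exact continuous_const.add (continuous_const.mul hZc)
    · fun_prop
    · exact continuous_id
    · exact continuous_const
    · intro x hx
      rw [hx, hZ1]; simp
  have hcross : ∀ x x' : ℝ, 0 ≤ x → x ≤ 1 → 1 < x' → x' ≤ 2 → E x ≠ E x' := by
    intro x x' hx0 hx1 hx'1 hx'2 h
    rw [hE1 x hx1, hE2 x' hx'1.le, hq1y] at h
    have h2 : Z x = 1 + c * ((x' - 1 : ℝ) : ℂ) := by
      have : (y - q0) * Z x = (y - q0) * (1 + c * ((x' - 1 : ℝ) : ℂ)) := by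
        linear_combination h
      exact mul_left_cancel₀ hyq this
    rcases le_or_gt (l * R) |x - 1 / 2| with h3 | h3
    · rw [hZo x h3] at h2
      have h4 := congrArg Complex.im h2
      rw [Complex.ofReal_im, Complex.add_im, Complex.one_im, Complex.im_mul_ofReal, zero_add] at h4
      rcases mul_eq_zero.mp h4.symm with h5 | h5
      · exact hne h5
      · linarith
    · have h4 := hZi x h3.le
      have e : Z x - 1 / 2 = 1 / 2 + ((x' - 1 : ℝ) : ℂ) * c := by rw [h2]; ring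
      rw [e] at h4
      have := hsc (x' - 1)
      linarith
  refine ⟨E, (y - q0) * l, q0 + (y - q0) * (1 / 2), l, mul_ne_zero hyq hlc, hl0, b1, hEc, ?_, ?_,
    ?_, ?_, ?_⟩
  · intro x hx x' hx' h
    rcases le_or_gt x 1 with c1 | c1 <;> rcases le_or_gt x' 1 with c2 | c2
    · rw [hE1 x c1, hE1 x' c2] at h
      exact hZinj (mul_left_cancel₀ hyq (add_left_cancel h))
    · exact absurd h (hcross x x' hx.1 c1 c2 hx'.2)
    · exact absurd h.symm (hcross x' x hx'.1 c2 c1 hx.2)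
    · rw [hE2 x c1.le, hE2 x' c2.le] at h
      have hq : q1 - y ≠ 0 := by rw [hq1y]; exact mul_ne_zero hyq hc0
      have h2 := mul_left_cancel₀ hq (add_left_cancel h)
      have h3 : x - 1 = x' - 1 := by exact_mod_cast h2
      linarith
  · rw [hE1 0 zero_le_one, hZ0]; simp
  · rw [hE2 2 (by norm_num)]
    push_cast; ring
  · intro x hx
    rcases le_or_gt x 1 with c1 | c1
    · left
      rw [hE1 x c1]
      rcases le_or_gt (l * R) |x - 1 / 2| with h3 | h3
      · rw [hZo x h3]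
        exact seg_ball h0 hy0 hx.1 c1
      · have h4 := hZi x h3.le
        have e : q0 + (y - q0) * Z x - w0 = (q0 + (y - q0) * ((1 / 2 : ℝ) : ℂ) - w0)
            + (y - q0) * (Z x - 1 / 2) := by push_cast; ring
        rw [e]
        refine (norm_add_le _ _).trans_lt ?_
        rw [norm_mul]
        have : ‖y - q0‖ * ‖Z x - 1 / 2‖ ≤ ‖y - q0‖ * (l * R) :=
          mul_le_mul_of_nonneg_left h4 hyn.le
        rw [hgap] at b3
        linarith
    · right
      rw [hE2 x c1.le]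
      have := seg_ball (x := 2 - x) h1 hy1 (by linarith [hx.2]) (by linarith)
      have e : y + (q1 - y) * ((x - 1 : ℝ) : ℂ) - w1
          = q1 + (y - q1) * ((2 - x : ℝ) : ℂ) - w1 := by push_cast; ring
      rw [e]
      exact this
  · intro x hx
    rw [hE1 x hx]
    simp only [hZ]
    ring

/-- a point of an open set off a line -/
theorem exists_off_line {q0 q1 y : ℂ} (hq : q0 ≠ q1) {O : Set ℂ} (hO : IsOpen O) (hy : y ∈ O) :
    ∃ z ∈ O, ((q1 - z) / (z - q0)).im ≠ 0 := by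
  have key : ∀ z : ℂ, ((q1 - z) / (z - q0)).im = 0 → ((q1 - z) * (starRingEnd ℂ) (z - q0)).im = 0 := by
    intro z hz
    by_cases h : z - q0 = 0
    · rw [h]; simp
    · have e : (q1 - z) * (starRingEnd ℂ) (z - q0)
          = (q1 - z) / (z - q0) * ((Complex.normSq (z - q0) : ℝ) : ℂ) := by
        rw [← Complex.mul_conj]
        field_simp
      rw [e, Complex.im_mul_ofReal, hz, zero_mul]
  by_contra hcon
  push Not at hcon
  obtain ⟨ε, hε, hball⟩ := Metric.isOpen_iff.mp hO y hy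
  have hqn : 0 < ‖q0 - q1‖ := norm_pos_iff.mpr (sub_ne_zero.mpr hq)
  set t : ℝ := ε / (2 * ‖q0 - q1‖) with ht
  have ht0 : 0 < t := by positivity
  have hz : y + t * ((q0 - q1) * I) ∈ O := by
    apply hball
    rw [Metric.mem_ball, dist_eq_norm, add_sub_cancel_left, norm_mul, norm_mul, Complex.norm_real,
      Real.norm_eq_abs, abs_of_pos ht0, Complex.norm_I, mul_one, ht]
    have : ε / (2 * ‖q0 - q1‖) * ‖q0 - q1‖ = ε / 2 := by field_simp
    rw [this]; linarith
  have k1 := key _ (hcon y hy)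
  have k2 := key _ (hcon _ hz)
  have e : ((q1 - (y + t * ((q0 - q1) * I))) * (starRingEnd ℂ) (y + t * ((q0 - q1) * I) - q0)).im
      - ((q1 - y) * (starRingEnd ℂ) (y - q0)).im = t * Complex.normSq (q0 - q1) := by
    simp only [Complex.mul_im, Complex.sub_re, Complex.sub_im, Complex.add_re, Complex.add_im,
      Complex.conj_re, Complex.conj_im, Complex.mul_re, Complex.ofReal_re, Complex.ofReal_im,
      Complex.I_re, Complex.I_im, Complex.normSq_apply]
    ring
  rw [k1, k2, sub_zero] at e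
  have h3 : 0 < Complex.normSq (q0 - q1) := Complex.normSq_pos.mpr (sub_ne_zero.mpr hq)
  have : 0 < t * Complex.normSq (q0 - q1) := by positivity
  linarith

end Pool.Agent.Typ
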