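import Pool.Agent.Lib.MP_2fd4e2_co.Typ.Surgery

/-!
Typical Jordan curves.
-/

set_option autoImplicit false

namespace Pool.Agent.Typ

open Complex Set Filter Topology Metric

theorem isGδ_injective : IsGδ {f : C(UnitAddCircle, ℂ) | Function.Injective f} := by
  have e : {f : C(UnitAddCircle, ℂ) | Function.Injective f}
      = ⋂ n : ℕ, {f : C(UnitAddCircle, ℂ) | ∀ q : UnitAddCircle × UnitAddCircle,
        1 / ((n : ℝ) + 1) ≤ dist q.1 q.2 → f q.1 ≠ f q.2} := by
    ext f
    simp only [mem_ofPred_eq, mem_iInter]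
    constructor
    · intro hf n q hq h
      have := hf h
      rw [this, dist_self] at hq
      have : 0 < 1 / ((n : ℝ) + 1) := by positivity
      linarith
    · intro h x y hxy
      by_contra hne
      obtain ⟨n, hn⟩ := exists_nat_one_div_lt (dist_pos.mpr hne)
      exact h n (x, y) hn.le hxy
  rw [e]
  refine IsGδ.iInter_of_isOpen (fun n => ?_)
  rw [← isClosed_compl_iff]
  set K : Set (UnitAddCircle × UnitAddCircle) := {q | 1 / ((n : ℝ) + 1) ≤ dist q.1 q.2} with hK
  have h1 : IsClosed {x : C(UnitAddCircle, ℂ) × (UnitAddCircle × UnitAddCircle) |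
      1 / ((n : ℝ) + 1) ≤ dist x.2.1 x.2.2 ∧ x.1 x.2.1 = x.1 x.2.2} := by
    have c1 : Continuous fun x : C(UnitAddCircle, ℂ) × (UnitAddCircle × UnitAddCircle) =>
        x.1 x.2.1 := by fun_prop
    have c2 : Continuous fun x : C(UnitAddCircle, ℂ) × (UnitAddCircle × UnitAddCircle) =>
        x.1 x.2.2 := by fun_prop
    have c3 : Continuous fun x : C(UnitAddCircle, ℂ) × (UnitAddCircle × UnitAddCircle) =>
        dist x.2.1 x.2.2 := by fun_prop
    exact (isClosed_le continuous_const c3).inter (isClosed_eq c1 c2)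
  have h2 := isClosedMap_fst_of_compactSpace _ h1
  convert h2 using 1
  ext f
  simp only [mem_compl_iff, mem_ofPred_eq, mem_image, Prod.exists]
  push Not
  constructor
  · rintro ⟨⟨x, y⟩, h3, h4⟩
    exact ⟨f, x, y, ⟨h3, h4⟩, rfl⟩
  · rintro ⟨f', x, y, ⟨h3, h4⟩, rfl⟩
    exact ⟨⟨x, y⟩, h3, h4⟩

instance baire_jordan : BaireSpace {f : C(UnitAddCircle, ℂ) // Function.Injective f} := by
  set S : Set C(UnitAddCircle, ℂ) := {f | Function.Injective f} with hS
  have hc : IsClosed (closure S) := isClosed_closure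
  have : CompleteSpace (closure S) := hc.completeSpace_coe
  have : BaireSpace (closure S) := inferInstance
  set T : Set (closure S) := Subtype.val ⁻¹' S with hT
  have hG : IsGδ T := isGδ_injective.preimage continuous_subtype_val
  have hd : Dense T := by
    intro x
    rw [mem_closure_iff_nhds_basis nhds_basis_ball]
    intro ε hε
    obtain ⟨y, hy, hxy⟩ := Metric.mem_closure_iff.mp x.2 ε hε
    refine ⟨⟨y, subset_closure hy⟩, hy, ?_⟩
    rw [mem_ball, dist_comm]
    exact hxy
  have := hG.baireSpace_of_dense hd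
  let e : T ≃ₜ {f : C(UnitAddCircle, ℂ) // Function.Injective f} :=
    { toFun := fun x => ⟨x.1.1, x.2⟩
      invFun := fun f => ⟨⟨f.1, subset_closure f.2⟩, f.2⟩
      left_inv := fun x => rfl
      right_inv := fun f => rfl
      continuous_toFun := by
        apply Continuous.subtype_mk
        exact continuous_subtype_val.comp continuous_subtype_val
      continuous_invFun := by
        apply Continuous.subtype_mk
        apply Continuous.subtype_mk
        exact continuous_subtype_val }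
  exact e.baireSpace

/-- the open sets of the proof -/
def W (v : Fin 4 → ℂ) (η a b : ℝ) : Set {f : C(UnitAddCircle, ℂ) // Function.Injective f} :=
  interior {f | ∀ w : Fin 4 → ℂ, (∀ i, ‖w i - v i‖ < η) → Ins f.1 w a b}

theorem exists_dense (v : Fin 4 → ℂ) (hv : Function.Injective v) :
    ∃ η > 0, ∀ a b : ℝ, a < b → Dense (W v η a b) := by
  obtain ⟨η, hη, h⟩ := dense_open v hv
  refine ⟨η, hη, fun a b hab f => ?_⟩
  rw [mem_closure_iff_nhds_basis nhds_basis_ball]
  intro ε hε
  obtain ⟨g, hg, hgf, ε', hε', hh⟩ := h a b hab f.1 f.2 ε hε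
  refine ⟨⟨g, hg⟩, ?_, hgf⟩
  rw [W, mem_interior_iff_mem_nhds, Metric.mem_nhds_iff]
  exact ⟨ε', hε', fun k hk w hw => hh k.1 hk w hw⟩

theorem typical :
    (∀ v : Fin 4 → ℂ, Function.Injective v →
      IsNowhereDense {f : {f : C(UnitAddCircle, ℂ) // Function.Injective f} |
        ∀ α β : ℂ, α ≠ 0 → ∃ i, α * v i + β ∉ range f.1}) ∧
    ∃ R : Set {f : C(UnitAddCircle, ℂ) // Function.Injective f},
      R ∈ residual {f : C(UnitAddCircle, ℂ) // Function.Injective f} ∧ Dense R ∧
      ∀ f ∈ R, ∀ a b : ℝ, a < b → ∀ v : Fin 4 → ℂ, Function.Injective v →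
        ∃ α β : ℂ, α ≠ 0 ∧ ∃ t : Fin 4 → ℝ, StrictMono t ∧
          ∀ i, t i ∈ Ioo a b ∧ f.1 (t i : UnitAddCircle) = α * v i + β := by
  constructor
  · intro v hv
    obtain ⟨η, hη, hd⟩ := exists_dense v hv
    have h1 := hd 0 1 one_pos
    set N := {f : {f : C(UnitAddCircle, ℂ) // Function.Injective f} |
        ∀ α β : ℂ, α ≠ 0 → ∃ i, α * v i + β ∉ range f.1} with hN
    have h2 : N ⊆ (W v η 0 1)ᶜ := by
      intro f hf hfW
      have h3 := interior_subset hfW
      obtain ⟨α, β, hα, t, _, ht⟩ := h3 v (fun i => by rw [sub_self, norm_zero]; exact hη)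
      obtain ⟨i, hi⟩ := hf α β hα
      apply hi
      rw [← (ht i).2]
      exact mem_range_self _
    have hWo : IsOpen (W v η 0 1) := isOpen_interior
    have h3 : closure N ⊆ (W v η 0 1)ᶜ := closure_minimal h2 hWo.isClosed_compl
    unfold IsNowhereDense
    rw [← subset_empty_iff]
    refine (interior_mono h3).trans ?_
    rw [interior_compl, h1.closure_eq, compl_univ]
  · choose! η hη hd using exists_dense
    obtain ⟨T, hT, hTc, hTU⟩ := TopologicalSpace.isOpen_biUnion_countable
      {v : Fin 4 → ℂ | Function.Injective v} (fun v => ball v (η v)) (fun v _ => isOpen_ball)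
    set R : Set {f : C(UnitAddCircle, ℂ) // Function.Injective f} :=
      ⋂ v ∈ T, ⋂ q : {q : ℚ × ℚ // q.1 < q.2}, W v (η v) (q.1.1 : ℝ) (q.1.2 : ℝ) with hR
    have hRr : R ∈ residual {f : C(UnitAddCircle, ℂ) // Function.Injective f} := by
      rw [hR, countable_bInter_mem hTc]
      intro v hv
      rw [countable_iInter_mem]
      intro q
      have hq : ((q.1.1 : ℚ) : ℝ) < ((q.1.2 : ℚ) : ℝ) := by exact_mod_cast q.2
      exact residual_of_dense_open isOpen_interior (hd v (hT hv) _ _ hq)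
    refine ⟨R, hRr, dense_of_mem_residual hRr, ?_⟩
    intro f hf a b hab v hv
    obtain ⟨q1, hq1, hq1b⟩ := exists_rat_btwn hab
    obtain ⟨q2, hq2, hq2b⟩ := exists_rat_btwn hq1b
    have hq : q1 < q2 := by exact_mod_cast hq2
    have hvU : v ∈ ⋃ u ∈ {v : Fin 4 → ℂ | Function.Injective v}, ball u (η u) := by
      simp only [mem_iUnion]
      exact ⟨v, hv, mem_ball_self (hη v hv)⟩
    rw [← hTU] at hvU
    simp only [mem_iUnion] at hvU
    obtain ⟨u, hu, hvu⟩ := hvU
    simp only [hR, mem_iInter] at hf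
    have h1 := interior_subset (hf u hu ⟨(q1, q2), hq⟩)
    obtain ⟨α, β, hα, t, ht, hti⟩ := h1 v (fun i => by
      rw [mem_ball, dist_eq_norm] at hvu
      exact (norm_le_pi_norm (v - u) i).trans_lt hvu)
    refine ⟨α, β, hα, t, ht, fun i => ⟨⟨?_, ?_⟩, (hti i).2⟩⟩
    · exact hq1.trans (hti i).1.1
    · exact (hti i).1.2.trans hq2b

end Pool.Agent.Typ
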