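import Pool.Agent.Lib.MP_2fd4e2_co.Typ.Robust

/-!
A simple path that agrees with a line outside a ball and passes through four given points in a
given order, in general directions.
-/

set_option autoImplicit false

namespace Pool.Agent.Typ

open Complex Set Filter Topology

/-- a bump: `1` on `[-1, 1]`, `0` off `[-2, 2]` -/
noncomputable def bmp (t : ℝ) : ℝ := max 0 (min 1 (2 - |t|))

theorem bmp_cont : Continuous bmp := by
  unfold bmp
  fun_prop

theorem bmp_one {t : ℝ} (h : |t| ≤ 1) : bmp t = 1 := by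
  unfold bmp
  rw [min_eq_left (by linarith), max_eq_right zero_le_one]

theorem bmp_zero {t : ℝ} (h : 2 ≤ |t|) : bmp t = 0 := by
  unfold bmp
  exact max_eq_left ((min_le_right _ _).trans (by linarith))

/-- avoiding finitely many real lines -/
theorem exists_rot {ι : Type*} [Finite ι] (z : ι → ℂ) (hz : ∀ i, z i ≠ 0) :
    ∃ e : ℂ, e ≠ 0 ∧ ∀ i, (e * z i).re ≠ 0 := by
  have hfin : (range fun i => (z i).re / (z i).im).Finite := finite_range _
  obtain ⟨t, ht⟩ := hfin.infinite_compl.nonempty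
  refine ⟨⟨1, t⟩, ?_, ?_⟩
  · intro h
    have := congrArg Complex.re h
    simp at this
  · intro i h
    have h1 : (z i).re - t * (z i).im = 0 := by
      have : ((⟨1, t⟩ : ℂ) * z i).re = 1 * (z i).re - t * (z i).im := Complex.mul_re _ _
      rw [this] at h
      linarith
    by_cases h2 : (z i).im = 0
    · rw [h2, mul_zero, sub_zero] at h1
      exact hz i (Complex.ext h1 h2)
    · apply ht
      refine ⟨i, ?_⟩
      show (z i).re / (z i).im = t
      rw [div_eq_iff h2]
      linarith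

/-- the points `v` after a similarity, with slopes `m` -/
theorem exists_frame (v : Fin 4 → ℂ) (hv : Function.Injective v) :
    ∃ e β : ℂ, e ≠ 0 ∧ ∃ m : Fin 4 → ℝ,
      Good (fun i => e * v i + β) (fun i => ⟨1, m i⟩) ∧
      (∀ i j, i ≠ j → (e * v i + β).im ≠ (e * v j + β).im) ∧ ∀ i, (e * v i + β).im ≠ 0 := by
  classical
  obtain ⟨d, hd, hd0⟩ := exists_good v hv
  obtain ⟨e, he, hz⟩ := exists_rot (ι := Fin 4 ⊕ {p : Fin 4 × Fin 4 // p.1 ≠ p.2})
    (fun k => match k with
      | Sum.inl i => d i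
      | Sum.inr p => -I * (v p.1.1 - v p.1.2)) (by
    rintro (i | ⟨p, hp⟩)
    · exact hd0 i
    · exact mul_ne_zero (neg_ne_zero.mpr I_ne_zero) (sub_ne_zero.mpr (fun h => hp (hv h))))
  have h1 : ∀ i, (e * d i).re ≠ 0 := fun i => hz (Sum.inl i)
  have h2 : ∀ i j, i ≠ j → (e * v i).im ≠ (e * v j).im := by
    intro i j hij h
    have := hz (Sum.inr ⟨(i, j), hij⟩)
    apply this
    have e1 : e * (-I * (v i - v j)) = -I * (e * v i - e * v j) := by ring
    show (e * (-I * (v i - v j))).re = 0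
    rw [e1]
    simp [h]
  -- a shift making the imaginary parts nonzero
  have hfin : (range fun i => -(e * v i).im).Finite := finite_range _
  obtain ⟨b, hb⟩ := hfin.infinite_compl.nonempty
  refine ⟨e, ⟨0, b⟩, he, fun i => (e * d i).im / (e * d i).re, ?_, ?_, ?_⟩
  · have g1 := hd.rot he (β := ⟨0, b⟩)
    have g2 := g1.scale (fun i => 1 / (e * d i).re) (fun i => one_div_ne_zero (h1 i))
    have e2 : (fun i => (((1 / (e * d i).re : ℝ) : ℂ)) * (e * d i))
        = fun i => (⟨1, (e * d i).im / (e * d i).re⟩ : ℂ) := by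
      funext i
      apply Complex.ext
      · rw [Complex.re_ofReal_mul]
        show 1 / (e * d i).re * (e * d i).re = 1
        rw [one_div, inv_mul_cancel₀ (h1 i)]
      · rw [Complex.im_ofReal_mul]
        show 1 / (e * d i).re * (e * d i).im = (e * d i).im / (e * d i).re
        ring
    rw [e2] at g2
    exact g2
  · intro i j hij
    rw [Complex.add_im, Complex.add_im]
    intro h
    exact h2 i j hij (by linarith)
  · intro i h
    apply hb
    refine ⟨i, ?_⟩
    rw [Complex.add_im] at h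
    show -(e * v i).im = b
    have : ((⟨0, b⟩ : ℂ)).im = b := rfl
    rw [this] at h
    linarith

/-- positivity of a minimum over finitely many positive numbers -/
theorem exists_pos_le {ι : Type*} [Finite ι] (f : ι → ℝ) (hf : ∀ i, 0 < f i) :
    ∃ ω > 0, ∀ i, ω ≤ f i := by
  rcases isEmpty_or_nonempty ι with h | h
  · exact ⟨1, one_pos, fun i => (h.false i).elim⟩
  · obtain ⟨i, hi⟩ := Finite.exists_min f
    exact ⟨f i, hf i, hi⟩

/-- the path -/
theorem exists_path (p : Fin 4 → ℂ) (m : Fin 4 → ℝ)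
    (him : ∀ i j, i ≠ j → (p i).im ≠ (p j).im) (him0 : ∀ i, (p i).im ≠ 0) :
    ∃ (ζ : ℝ → ℂ) (R κ : ℝ), Continuous ζ ∧ Function.Injective ζ ∧ 5 ≤ R ∧
      (∀ u, R ≤ |u| → ζ u = u) ∧ (∀ u, |u| ≤ R → ‖ζ u‖ ≤ R) ∧ 0 < κ ∧
      ∀ i : Fin 4, ∀ s : ℝ, |s| ≤ κ → ζ ((i : ℕ) + s) = p i + s * ⟨1, m i⟩ := by
  classical
  obtain ⟨ω, hω, hω1⟩ := exists_pos_le (ι := Fin 4 ⊕ {q : Fin 4 × Fin 4 // q.1 ≠ q.2})
    (fun k => match k with
      | Sum.inl i => |(p i).im| / 3
      | Sum.inr q => |(p q.1.1).im - (p q.1.2).im| / 3) (by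
    rintro (i | ⟨q, hq⟩)
    · have := abs_pos.mpr (him0 i)
      show 0 < |(p i).im| / 3
      positivity
    · have := abs_pos.mpr (sub_ne_zero.mpr (him _ _ hq))
      show 0 < |(p q.1).im - (p q.2).im| / 3
      positivity)
  have w1 : ∀ i, 3 * ω ≤ |(p i).im| := by
    intro i
    have : ω ≤ |(p i).im| / 3 := hω1 (Sum.inl i)
    linarith
  have w2 : ∀ i j, i ≠ j → 3 * ω ≤ |(p i).im - (p j).im| := by
    intro i j hij
    have : ω ≤ |(p i).im - (p j).im| / 3 := hω1 (Sum.inr ⟨(i, j), hij⟩)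
    linarith
  obtain ⟨κ, hκ, hκ1⟩ := exists_pos_le (ι := Option (Fin 4))
    (fun k => match k with
      | none => 1 / 3
      | some i => ω / (1 + |m i|)) (by
    rintro (_ | i)
    · show (0 : ℝ) < 1 / 3
      norm_num
    · show 0 < ω / (1 + |m i|)
      positivity)
  have k1 : κ ≤ 1 / 3 := hκ1 none
  have k2 : ∀ i, |m i| * κ ≤ ω := by
    intro i
    have : κ ≤ ω / (1 + |m i|) := hκ1 (some i)
    rw [le_div_iff₀ (by positivity)] at this
    have := abs_nonneg (m i)
    nlinarith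
  set ψ : ℝ → ℝ := fun y => ∑ i : Fin 4, (((i : ℕ) : ℝ) - (p i).re) * bmp ((y - (p i).im) / ω) with hψ
  set F : ℝ → ℝ := fun u => ∑ i : Fin 4, ((p i).im + m i * (u - ((i : ℕ) : ℝ))) *
    bmp ((u - ((i : ℕ) : ℝ)) / (1 / 3)) with hF
  have hψc : Continuous ψ := by
    simp only [hψ]
    refine continuous_finsetSum _ (fun i _ => continuous_const.mul (bmp_cont.comp ?_))
    fun_prop
  have hFc : Continuous F := by
    simp only [hF]
    refine continuous_finsetSum _ (fun i _ => Continuous.mul ?_ (bmp_cont.comp ?_))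
    · fun_prop
    · fun_prop
  have hψ0 : ψ 0 = 0 := by
    simp only [hψ]
    refine Finset.sum_eq_zero (fun i _ => ?_)
    rw [bmp_zero, mul_zero]
    rw [zero_sub, abs_div, abs_neg, abs_of_pos hω, le_div_iff₀ hω]
    linarith [w1 i]
  have hψi : ∀ i, ∀ y, |y - (p i).im| ≤ ω → ψ y = ((i : ℕ) : ℝ) - (p i).re := by
    intro i y hy
    simp only [hψ]
    rw [Finset.sum_eq_single i]
    · rw [bmp_one, mul_one]
      rw [abs_div, abs_of_pos hω, div_le_one hω]
      exact hy
    · intro j _ hj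
      rw [bmp_zero, mul_zero]
      rw [abs_div, abs_of_pos hω, le_div_iff₀ hω]
      have h1 := w2 i j hj.symm
      have h2 : |(p i).im - (p j).im| ≤ |y - (p i).im| + |y - (p j).im| := by
        have : (p i).im - (p j).im = (y - (p j).im) - (y - (p i).im) := by ring
        rw [this]
        have := abs_sub (y - (p j).im) (y - (p i).im)
        linarith
      linarith
    · intro h; exact absurd (Finset.mem_univ i) h
  have hij : ∀ i j : Fin 4, i ≠ j → (1 : ℝ) ≤ |((i : ℕ) : ℝ) - ((j : ℕ) : ℝ)| := by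
    intro i j hij
    have h1 : ((i : ℕ) : ℤ) - ((j : ℕ) : ℤ) ≠ 0 := by
      intro h
      apply hij
      ext
      omega
    have h2 := Int.one_le_abs h1
    have h3 : ((1 : ℤ) : ℝ) ≤ ((|((i : ℕ) : ℤ) - ((j : ℕ) : ℤ)| : ℤ) : ℝ) := by exact_mod_cast h2
    push_cast at h3
    exact h3
  have hFi : ∀ i : Fin 4, ∀ s : ℝ, |s| ≤ κ → F (((i : ℕ) : ℝ) + s) = (p i).im + m i * s := by
    intro i s hs
    simp only [hF]
    rw [Finset.sum_eq_single i]
    · rw [bmp_one, mul_one]
      · ring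
      · rw [add_sub_cancel_left, abs_div, abs_of_pos (by norm_num : (0 : ℝ) < 1 / 3), div_le_one
          (by norm_num)]
        linarith
    · intro j _ hj
      rw [bmp_zero, mul_zero]
      rw [abs_div, abs_of_pos (by norm_num : (0 : ℝ) < 1 / 3), le_div_iff₀ (by norm_num)]
      have h1 := hij i j hj.symm
      have h2 : |((i : ℕ) : ℝ) - ((j : ℕ) : ℝ)| ≤ |((i : ℕ) : ℝ) + s - ((j : ℕ) : ℝ)| + |s| := by
        have : ((i : ℕ) : ℝ) - ((j : ℕ) : ℝ) = (((i : ℕ) : ℝ) + s - ((j : ℕ) : ℝ)) - s := by ring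
        calc |((i : ℕ) : ℝ) - ((j : ℕ) : ℝ)| = |(((i : ℕ) : ℝ) + s - ((j : ℕ) : ℝ)) - s| := by
              rw [← this]
          _ ≤ _ := abs_sub _ _
      linarith
    · intro h; exact absurd (Finset.mem_univ i) h
  have hFo : ∀ u, 5 ≤ |u| → F u = 0 := by
    intro u hu
    simp only [hF]
    refine Finset.sum_eq_zero (fun i _ => ?_)
    rw [bmp_zero, mul_zero]
    rw [abs_div, abs_of_pos (by norm_num : (0 : ℝ) < 1 / 3), le_div_iff₀ (by norm_num)]
    have h1 : (((i : ℕ) : ℝ)) ≤ 3 := by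
      have : (i : ℕ) ≤ 3 := by omega
      exact_mod_cast this
    have h2 : (0 : ℝ) ≤ ((i : ℕ) : ℝ) := Nat.cast_nonneg _
    have h3 : |u| ≤ |u - ((i : ℕ) : ℝ)| + |((i : ℕ) : ℝ)| := by
      have := abs_add_le (u - ((i : ℕ) : ℝ)) ((i : ℕ) : ℝ)
      rwa [sub_add_cancel] at this
    rw [abs_of_nonneg h2] at h3
    linarith
  set ζ : ℝ → ℂ := fun u => ⟨u - ψ (F u), F u⟩ with hζ
  have hζc : Continuous ζ := by
    have e : ζ = fun u => ((u - ψ (F u) : ℝ) : ℂ) + ((F u : ℝ) : ℂ) * I := by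
      funext u
      exact Complex.mk_eq_add_mul_I _ _
    rw [e]
    have h1 : Continuous (fun u => u - ψ (F u)) := continuous_id.sub (hψc.comp hFc)
    exact (Complex.continuous_ofReal.comp h1).add
      ((Complex.continuous_ofReal.comp hFc).mul continuous_const)
  obtain ⟨u₀, hu₀, hmax⟩ := (isCompact_Icc (a := (-5 : ℝ)) (b := 5)).exists_isMaxOn
    ⟨0, by norm_num, by norm_num⟩ (hζc.norm.continuousOn)
  refine ⟨ζ, max 5 ‖ζ u₀‖, κ, hζc, ?_, le_max_left _ _, ?_, ?_, hκ, ?_⟩
  · intro u u' h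
    have h1 : F u = F u' := congrArg Complex.im h
    have h2 : u - ψ (F u) = u' - ψ (F u') := congrArg Complex.re h
    rw [h1] at h2
    linarith
  · intro u hu
    have h5 : 5 ≤ |u| := (le_max_left _ _).trans hu
    show (⟨u - ψ (F u), F u⟩ : ℂ) = u
    rw [hFo u h5, hψ0, sub_zero]
    apply Complex.ext <;> simp
  · intro u hu
    rcases le_or_gt |u| 5 with h | h
    · have h1 : u ∈ Icc (-5 : ℝ) 5 := by
        rw [abs_le] at h
        exact h
      exact (hmax h1).trans (le_max_right _ _)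
    · have e : ζ u = u := by
        show (⟨u - ψ (F u), F u⟩ : ℂ) = u
        rw [hFo u h.le, hψ0, sub_zero]
        apply Complex.ext <;> simp
      rw [e, Complex.norm_real, Real.norm_eq_abs]
      exact hu
  · intro i s hs
    show (⟨((i : ℕ) : ℝ) + s - ψ (F (((i : ℕ) : ℝ) + s)), F (((i : ℕ) : ℝ) + s)⟩ : ℂ)
      = p i + s * ⟨1, m i⟩
    have h1 := hFi i s hs
    have h2 : ψ (F (((i : ℕ) : ℝ) + s)) = ((i : ℕ) : ℝ) - (p i).re := by
      rw [h1]
      apply hψi
      rw [add_sub_cancel_left, abs_mul]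
      have := k2 i
      have := abs_nonneg (m i)
      nlinarith
    rw [h2, h1]
    apply Complex.ext
    · rw [Complex.add_re, Complex.re_ofReal_mul]
      ring
    · rw [Complex.add_im, Complex.im_ofReal_mul]
      ring

end Pool.Agent.Typ
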