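import Pool.Agent.Lib.FPK.Kak

/-!
Four arcs near four segments in general directions contain a similar copy of four points.
-/

set_option autoImplicit false

namespace Pool.Agent.Typ

open Complex Set Filter Topology

/-- clamp to the cube -/
noncomputable def clp (x : Fin 4 → ℝ) : Fin 4 → ℝ := fun i => max (-1) (min 1 (x i))

theorem clp_cont : Continuous clp := by
  unfold clp
  fun_prop

theorem clp_mem (x : Fin 4 → ℝ) (i : Fin 4) : |clp x i| ≤ 1 := by
  unfold clp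
  rw [abs_le]
  constructor
  · exact le_max_left _ _
  · exact max_le (by norm_num) (min_le_left _ _)

theorem clp_of (x : Fin 4 → ℝ) (h : ∀ i, |x i| ≤ 1) : clp x = x := by
  funext i
  unfold clp
  have := abs_le.mp (h i)
  rw [min_eq_right this.2, max_eq_right this.1]

theorem cube_zero (L : (Fin 4 → ℝ) ≃L[ℝ] (ℂ × ℂ)) : ∃ η > 0, ∀ Φ : (Fin 4 → ℝ) → ℂ × ℂ,
    Continuous Φ → (∀ x : Fin 4 → ℝ, (∀ i, |x i| ≤ 1) → ‖Φ x - L x‖ ≤ η) →
    ∃ x : Fin 4 → ℝ, (∀ i, |x i| ≤ 1) ∧ Φ x = 0 := by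
  set N := ‖(L.symm : (ℂ × ℂ) →L[ℝ] (Fin 4 → ℝ))‖ with hN
  have hN0 : 0 ≤ N := norm_nonneg _
  refine ⟨1 / (N + 1), by positivity, ?_⟩
  intro Φ hΦ hc
  set g : (Fin 4 → ℝ) → (Fin 4 → ℝ) := fun x => clp x - L.symm (Φ (clp x)) with hg
  have hgc : Continuous g := clp_cont.sub (L.symm.continuous.comp (hΦ.comp clp_cont))
  have hb : ∀ x, ‖g x‖ ≤ 1 := by
    intro x
    have e : g x = -(L.symm (Φ (clp x) - L (clp x))) := by
      simp only [hg]
      rw [map_sub, L.symm_apply_apply]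
      abel
    rw [e, norm_neg]
    have h1 := (L.symm : (ℂ × ℂ) →L[ℝ] (Fin 4 → ℝ)).le_opNorm (Φ (clp x) - L (clp x))
    have h2 := hc (clp x) (clp_mem x)
    have h3 : ‖L.symm (Φ (clp x) - L (clp x))‖ ≤ N * ‖Φ (clp x) - L (clp x)‖ := h1
    have h4 : N * ‖Φ (clp x) - L (clp x)‖ ≤ N * (1 / (N + 1)) :=
      mul_le_mul_of_nonneg_left h2 hN0
    have h5 : N * (1 / (N + 1)) ≤ 1 := by
      rw [mul_one_div, div_le_one (by linarith)]
      linarith
    linarith
  obtain ⟨x, hx⟩ := Pool.Agent.Lib.FPK.exists_fixed g hgc (R := 1) hb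
  have hx1 : ‖x‖ ≤ 1 := by rw [← hx]; exact hb x
  have hx2 : ∀ i, |x i| ≤ 1 := by
    intro i
    have := norm_le_pi_norm x i
    rw [Real.norm_eq_abs] at this
    linarith
  refine ⟨x, hx2, ?_⟩
  have h1 : g x = x - L.symm (Φ x) := by
    simp only [hg]
    rw [clp_of x hx2]
  rw [h1] at hx
  have h2 : L.symm (Φ x) = 0 := by
    have := congrArg (fun z => x - z) hx
    simpa using this
  have := congrArg L h2
  simpa using this

/-- the linear map of the four parameters -/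
noncomputable def Lm (v d : Fin 4 → ℂ) : (Fin 4 → ℝ) →ₗ[ℝ] (ℂ × ℂ) where
  toFun x := ((v 1 - v 0) * (x 2 * d 2 - x 0 * d 0) - (v 2 - v 0) * (x 1 * d 1 - x 0 * d 0),
    (v 1 - v 0) * (x 3 * d 3 - x 0 * d 0) - (v 3 - v 0) * (x 1 * d 1 - x 0 * d 0))
  map_add' x y := by
    simp only [Pi.add_apply, Prod.mk_add_mk]
    push_cast
    congr 1 <;> ring
  map_smul' r x := by
    simp only [Pi.smul_apply, smul_eq_mul, RingHom.id_apply, Prod.smul_mk, Complex.real_smul]
    push_cast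
    congr 1 <;> ring

/-- the directions `d` are in general position for the points `v` -/
def Good (v d : Fin 4 → ℂ) : Prop := Function.Injective (Lm v d)

theorem good_iff (v d : Fin 4 → ℂ) : Good v d ↔ ∀ x, Lm v d x = 0 → x = 0 :=
  injective_iff_map_eq_zero (Lm v d)

theorem exists_nonreal {p q : ℂ} (hp : p ≠ 0) (hq : q ≠ 0) :
    ∃ δ : ℂ, (p * δ).im ≠ 0 ∧ (q * δ).im ≠ 0 := by
  have key : ∀ z : ℂ, z ≠ 0 → z.re = 0 → z.im ≠ 0 := by
    intro z hz h1 h2
    exact hz (Complex.ext h1 h2)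
  by_cases h1 : p.im ≠ 0 ∧ q.im ≠ 0
  · exact ⟨1, by simpa using h1.1, by simpa using h1.2⟩
  by_cases h2 : p.re ≠ 0 ∧ q.re ≠ 0
  · exact ⟨I, by simpa using h2.1, by simpa using h2.2⟩
  refine ⟨1 + I, ?_, ?_⟩
  · have e : (p * (1 + I)).im = p.re + p.im := by simp
    rw [e]
    by_cases hpr : p.re = 0
    · rw [hpr, zero_add]; exact key p hp hpr
    · have hqr : q.re = 0 := by
        by_contra h; exact h2 ⟨hpr, h⟩
      have hqi := key q hq hqr
      have hpi : p.im = 0 := by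
        by_contra h; exact h1 ⟨h, hqi⟩
      rw [hpi, add_zero]; exact hpr
  · have e : (q * (1 + I)).im = q.re + q.im := by simp
    rw [e]
    by_cases hqr : q.re = 0
    · rw [hqr, zero_add]; exact key q hq hqr
    · have hpr : p.re = 0 := by
        by_contra h; exact h2 ⟨h, hqr⟩
      have hpi := key p hp hpr
      have hqi : q.im = 0 := by
        by_contra h; exact h1 ⟨hpi, h⟩
      rw [hqi, add_zero]; exact hqr

/-- good directions exist -/
theorem exists_good (v : Fin 4 → ℂ) (hv : Function.Injective v) :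
    ∃ d : Fin 4 → ℂ, Good v d ∧ ∀ i, d i ≠ 0 := by
  have n10 : v 1 - v 0 ≠ 0 := sub_ne_zero.mpr (fun h => by simpa using hv h)
  have n20 : v 2 - v 0 ≠ 0 := sub_ne_zero.mpr (fun h => by simpa using hv h)
  have n30 : v 3 - v 0 ≠ 0 := sub_ne_zero.mpr (fun h => by simpa using hv h)
  have n12 : v 1 - v 2 ≠ 0 := sub_ne_zero.mpr (fun h => by simpa using hv h)
  have n13 : v 1 - v 3 ≠ 0 := sub_ne_zero.mpr (fun h => by simpa using hv h)
  obtain ⟨δ, h1, h2⟩ := exists_nonreal (p := (v 1 - v 2) / (v 2 - v 0))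
    (q := (v 1 - v 3) / (v 3 - v 0)) (div_ne_zero n12 n20) (div_ne_zero n13 n30)
  have hδ : δ ≠ 0 := by
    rintro rfl
    simp at h1
  refine ⟨![δ, 1, (v 2 - v 0) / (v 1 - v 0), (v 1 - v 3) / (v 1 - v 0) * δ], ?_, ?_⟩
  · rw [good_iff]
    intro x hx
    have hx2 : (v 1 - v 0) * (x 2 * ((v 2 - v 0) / (v 1 - v 0)) - x 0 * δ)
        - (v 2 - v 0) * (x 1 * 1 - x 0 * δ) = 0 := congrArg Prod.fst hx
    have hx3 : (v 1 - v 0) * (x 3 * ((v 1 - v 3) / (v 1 - v 0) * δ) - x 0 * δ)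
        - (v 3 - v 0) * (x 1 * 1 - x 0 * δ) = 0 := congrArg Prod.snd hx
    have e2 : ((x 2 - x 1 : ℝ) : ℂ) = x 0 * ((v 1 - v 2) / (v 2 - v 0) * δ) := by
      push_cast
      field_simp
      field_simp at hx2
      linear_combination hx2
    have a1 := congrArg Complex.im e2
    rw [Complex.ofReal_im, Complex.im_ofReal_mul] at a1
    have x0 : x 0 = 0 := by
      rcases mul_eq_zero.mp a1.symm with h | h
      · exact h
      · exact absurd h h1
    have a2 : x 2 = x 1 := by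
      have := congrArg Complex.re e2
      rw [Complex.ofReal_re, x0] at this
      simp at this
      linarith
    have e3 : ((x 1 : ℝ) : ℂ) = x 3 * ((v 1 - v 3) / (v 3 - v 0) * δ) := by
      rw [x0] at hx3
      push_cast at hx3 ⊢
      field_simp
      field_simp at hx3
      linear_combination -hx3
    have a3 := congrArg Complex.im e3
    rw [Complex.ofReal_im, Complex.im_ofReal_mul] at a3
    have x3 : x 3 = 0 := by
      rcases mul_eq_zero.mp a3.symm with h | h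
      · exact h
      · exact absurd h h2
    have x1 : x 1 = 0 := by
      have := congrArg Complex.re e3
      rw [Complex.ofReal_re, x3] at this
      simpa using this
    funext i
    fin_cases i
    · exact x0
    · exact x1
    · show x 2 = 0
      rw [a2, x1]
    · exact x3
  · intro i
    fin_cases i
    · exact hδ
    · exact one_ne_zero
    · exact div_ne_zero n20 n10
    · exact mul_ne_zero (div_ne_zero n13 n10) hδ

/-- rescaling the directions -/
theorem Good.scale {v d : Fin 4 → ℂ} (h : Good v d) (l : Fin 4 → ℝ) (hl : ∀ i, l i ≠ 0) :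
    Good v (fun i => l i * d i) := by
  rw [good_iff] at h ⊢
  intro x hx
  have h1 : Lm v d (fun i => x i * l i) = 0 := by
    rw [← hx]
    apply Prod.ext
    · show (v 1 - v 0) * ((x 2 * l 2 : ℝ) * d 2 - (x 0 * l 0 : ℝ) * d 0)
        - (v 2 - v 0) * ((x 1 * l 1 : ℝ) * d 1 - (x 0 * l 0 : ℝ) * d 0)
        = (v 1 - v 0) * (x 2 * (l 2 * d 2) - x 0 * (l 0 * d 0))
        - (v 2 - v 0) * (x 1 * (l 1 * d 1) - x 0 * (l 0 * d 0))
      push_cast; ring
    · show (v 1 - v 0) * ((x 3 * l 3 : ℝ) * d 3 - (x 0 * l 0 : ℝ) * d 0)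
        - (v 3 - v 0) * ((x 1 * l 1 : ℝ) * d 1 - (x 0 * l 0 : ℝ) * d 0)
        = (v 1 - v 0) * (x 3 * (l 3 * d 3) - x 0 * (l 0 * d 0))
        - (v 3 - v 0) * (x 1 * (l 1 * d 1) - x 0 * (l 0 * d 0))
      push_cast; ring
  have h2 := h _ h1
  funext i
  have := congrFun h2 i
  rcases mul_eq_zero.mp this with h3 | h3
  · exact h3
  · exact absurd h3 (hl i)

/-- a similarity of the points and the directions -/
theorem Good.rot {v d : Fin 4 → ℂ} (h : Good v d) {e β : ℂ} (he : e ≠ 0) :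
    Good (fun i => e * v i + β) (fun i => e * d i) := by
  rw [good_iff] at h ⊢
  intro x hx
  apply h
  have h1 : (e * v 1 + β - (e * v 0 + β)) * (x 2 * (e * d 2) - x 0 * (e * d 0))
      - (e * v 2 + β - (e * v 0 + β)) * (x 1 * (e * d 1) - x 0 * (e * d 0)) = 0 :=
    congrArg Prod.fst hx
  have h2 : (e * v 1 + β - (e * v 0 + β)) * (x 3 * (e * d 3) - x 0 * (e * d 0))
      - (e * v 3 + β - (e * v 0 + β)) * (x 1 * (e * d 1) - x 0 * (e * d 0)) = 0 :=
    congrArg Prod.snd hx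
  have he2 : e ^ 2 ≠ 0 := pow_ne_zero 2 he
  apply Prod.ext
  · show (v 1 - v 0) * (x 2 * d 2 - x 0 * d 0) - (v 2 - v 0) * (x 1 * d 1 - x 0 * d 0) = 0
    apply mul_left_cancel₀ he2
    rw [mul_zero, ← h1]; ring
  · show (v 1 - v 0) * (x 3 * d 3 - x 0 * d 0) - (v 3 - v 0) * (x 1 * d 1 - x 0 * d 0) = 0
    apply mul_left_cancel₀ he2
    rw [mul_zero, ← h2]; ring

theorem err_bound {D V A1 Ai ε1 εi δ1 δi : ℂ} {r η M : ℝ} (hr0 : 0 < r) (hr : r ≤ 1)
    (hη0 : 0 ≤ η) (hη : η ≤ 1) (hM : 1 ≤ M) (hD : ‖D‖ ≤ 2 * M) (hV : ‖V‖ ≤ 2 * M)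
    (hA1 : ‖A1‖ ≤ 2 * M) (hAi : ‖Ai‖ ≤ 2 * M) (hε1 : ‖ε1‖ ≤ 2 * (η * r))
    (hεi : ‖εi‖ ≤ 2 * (η * r)) (hδ1 : ‖δ1‖ ≤ 2 * (η * r)) (hδi : ‖δi‖ ≤ 2 * (η * r)) :
    ‖(D + δ1) * (V + r * Ai + εi) - (V + δi) * (D + r * A1 + ε1) - r * (D * Ai - V * A1)‖
      ≤ r * (32 * M * η) := by
  have e : (D + δ1) * (V + r * Ai + εi) - (V + δi) * (D + r * A1 + ε1) - r * (D * Ai - V * A1)
      = D * εi + δ1 * (V + r * Ai + εi) - V * ε1 - δi * (D + r * A1 + ε1) := by ring
  rw [e]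
  have hηr : η * r ≤ 1 := by nlinarith
  have hηr0 : 0 ≤ η * r := by positivity
  have b1 : ‖(r : ℂ) * Ai‖ ≤ 2 * M := by
    rw [norm_mul, Complex.norm_real, Real.norm_eq_abs, abs_of_pos hr0]
    nlinarith [norm_nonneg Ai]
  have b2 : ‖(r : ℂ) * A1‖ ≤ 2 * M := by
    rw [norm_mul, Complex.norm_real, Real.norm_eq_abs, abs_of_pos hr0]
    nlinarith [norm_nonneg A1]
  have c1 : ‖V + r * Ai + εi‖ ≤ 4 * M + 2 := by
    have := norm_add₃_le (a := V) (b := (r : ℂ) * Ai) (c := εi)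
    linarith
  have c2 : ‖D + r * A1 + ε1‖ ≤ 4 * M + 2 := by
    have := norm_add₃_le (a := D) (b := (r : ℂ) * A1) (c := ε1)
    linarith
  have t1 : ‖D * εi‖ ≤ 2 * M * (2 * (η * r)) := by
    rw [norm_mul]
    exact mul_le_mul hD hεi (norm_nonneg _) (by linarith)
  have t2 : ‖δ1 * (V + r * Ai + εi)‖ ≤ 2 * (η * r) * (4 * M + 2) := by
    rw [norm_mul]
    exact mul_le_mul hδ1 c1 (norm_nonneg _) (by linarith)
  have t3 : ‖V * ε1‖ ≤ 2 * M * (2 * (η * r)) := by
    rw [norm_mul]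
    exact mul_le_mul hV hε1 (norm_nonneg _) (by linarith)
  have t4 : ‖δi * (D + r * A1 + ε1)‖ ≤ 2 * (η * r) * (4 * M + 2) := by
    rw [norm_mul]
    exact mul_le_mul hδi c2 (norm_nonneg _) (by linarith)
  have s1 : ‖D * εi + δ1 * (V + r * Ai + εi) - V * ε1 - δi * (D + r * A1 + ε1)‖
      ≤ ‖D * εi‖ + ‖δ1 * (V + r * Ai + εi)‖ + ‖V * ε1‖ + ‖δi * (D + r * A1 + ε1)‖ := by
    refine (norm_sub_le _ _).trans ?_
    gcongr
    refine (norm_sub_le _ _).trans ?_
    gcongr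
    exact norm_add_le _ _
  have : 2 * M * (2 * (η * r)) + 2 * (η * r) * (4 * M + 2) + 2 * M * (2 * (η * r))
      + 2 * (η * r) * (4 * M + 2) ≤ r * (32 * M * η) := by nlinarith
  linarith

/-- four arcs close to four segments in good directions contain a similar copy -/
theorem robust (v d : Fin 4 → ℂ) (hv : Function.Injective v) (hd : Good v d) :
    ∃ η > 0, ∃ r₀ > 0, ∀ r : ℝ, 0 < r → r ≤ r₀ → ∀ w : Fin 4 → ℂ, (∀ i, ‖w i - v i‖ ≤ η * r) →
      ∀ h : Fin 4 → ℝ → ℂ, (∀ i, Continuous (h i)) →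
      (∀ i, ∀ s : ℝ, |s| ≤ 1 → ‖h i s - (v i + s * r * d i)‖ ≤ η * r) →
      ∃ s : Fin 4 → ℝ, (∀ i, |s i| ≤ 1) ∧ ∃ α β : ℂ, α ≠ 0 ∧ ∀ i, h i (s i) = α * w i + β := by
  have n10 : v 1 - v 0 ≠ 0 := sub_ne_zero.mpr (fun h => by simpa using hv h)
  let L : (Fin 4 → ℝ) ≃ₗ[ℝ] (ℂ × ℂ) := LinearEquiv.ofInjectiveOfFinrankEq (Lm v d) hd (by
    rw [Module.finrank_fin_fun, Module.finrank_prod, Complex.finrank_real_complex])
  obtain ⟨η₁, hη₁, hz⟩ := cube_zero L.toContinuousLinearEquiv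
  have hLx : ∀ x, L.toContinuousLinearEquiv x = Lm v d x := fun x => rfl
  set M : ℝ := 1 + ∑ i, (‖v i‖ + ‖d i‖) with hM
  have hM1 : 1 ≤ M := by
    have : 0 ≤ ∑ i, (‖v i‖ + ‖d i‖) := Finset.sum_nonneg (fun i _ => by positivity)
    linarith
  have hvd : ∀ i, ‖v i‖ + ‖d i‖ ≤ M := by
    intro i
    have := Finset.single_le_sum (f := fun i => ‖v i‖ + ‖d i‖) (fun i _ => by positivity)
      (Finset.mem_univ i)
    linarith
  have hvM : ∀ i, ‖v i‖ ≤ M := fun i => by have := hvd i; have := norm_nonneg (d i); linarith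
  have hdM : ∀ i, ‖d i‖ ≤ M := fun i => by have := hvd i; have := norm_nonneg (v i); linarith
  have hDpos : 0 < ‖v 1 - v 0‖ := norm_pos_iff.mpr n10
  refine ⟨min 1 (η₁ / (32 * M)), by positivity, min 1 (‖v 1 - v 0‖ / (8 * M)), by positivity, ?_⟩
  intro r hr0 hr w hw h hcont hh
  set η := min 1 (η₁ / (32 * M)) with hη
  have hη1 : η ≤ 1 := min_le_left _ _
  have hη0 : 0 < η := by positivity
  have hη2 : 32 * M * η ≤ η₁ := by
    have : η ≤ η₁ / (32 * M) := min_le_right _ _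
    rw [le_div_iff₀ (by positivity)] at this
    linarith
  have hr1 : r ≤ 1 := hr.trans (min_le_left _ _)
  have hr2 : r * (8 * M) ≤ ‖v 1 - v 0‖ := by
    have : r ≤ ‖v 1 - v 0‖ / (8 * M) := hr.trans (min_le_right _ _)
    rwa [le_div_iff₀ (by positivity)] at this
  have hηr : η * r ≤ r := by nlinarith
  -- the map
  set E : Fin 4 → (Fin 4 → ℝ) → ℂ := fun i x =>
    (w 1 - w 0) * (h i (x i) - h 0 (x 0)) - (w i - w 0) * (h 1 (x 1) - h 0 (x 0)) with hE
  set Φ : (Fin 4 → ℝ) → ℂ × ℂ := fun x => ((r : ℂ)⁻¹ * E 2 x, (r : ℂ)⁻¹ * E 3 x) with hΦ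
  have hEc : ∀ i, Continuous (E i) := by
    intro i
    have h1 : ∀ j, Continuous (fun x : Fin 4 → ℝ => h j (x j)) := fun j =>
      (hcont j).comp (continuous_apply j)
    exact (continuous_const.mul ((h1 i).sub (h1 0))).sub
      (continuous_const.mul ((h1 1).sub (h1 0)))
  have hΦc : Continuous Φ := (continuous_const.mul (hEc 2)).prodMk (continuous_const.mul (hEc 3))
  have hdiff : ∀ i, ∀ x : Fin 4 → ℝ, (∀ i, |x i| ≤ 1) →
      ‖E i x - r * ((v 1 - v 0) * (x i * d i - x 0 * d 0) - (v i - v 0) * (x 1 * d 1 - x 0 * d 0))‖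
        ≤ r * (32 * M * η) := by
    intro i x hx
    set e : Fin 4 → ℂ := fun j => h j (x j) - (v j + x j * r * d j) with he
    have heb : ∀ j, ‖e j‖ ≤ η * r := fun j => hh j (x j) (hx j)
    have hxd : ∀ j, ‖(x j : ℂ) * d j‖ ≤ M := by
      intro j
      rw [norm_mul, Complex.norm_real, Real.norm_eq_abs]
      have := hdM j
      have := norm_nonneg (d j)
      have := hx j
      have := abs_nonneg (x j)
      nlinarith
    have b := err_bound (D := v 1 - v 0) (V := v i - v 0) (A1 := x 1 * d 1 - x 0 * d 0)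
      (Ai := x i * d i - x 0 * d 0) (ε1 := e 1 - e 0) (εi := e i - e 0)
      (δ1 := (w 1 - v 1) - (w 0 - v 0)) (δi := (w i - v i) - (w 0 - v 0)) (r := r) (η := η)
      (M := M) hr0 hr1 hη0.le hη1 hM1
      ((norm_sub_le _ _).trans (by have := hvM 1; have := hvM 0; linarith))
      ((norm_sub_le _ _).trans (by have := hvM i; have := hvM 0; linarith))
      ((norm_sub_le _ _).trans (by have := hxd 1; have := hxd 0; linarith))
      ((norm_sub_le _ _).trans (by have := hxd i; have := hxd 0; linarith))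
      ((norm_sub_le _ _).trans (by have := heb 1; have := heb 0; linarith))
      ((norm_sub_le _ _).trans (by have := heb i; have := heb 0; linarith))
      ((norm_sub_le _ _).trans (by have := hw 1; have := hw 0; linarith))
      ((norm_sub_le _ _).trans (by have := hw i; have := hw 0; linarith))
    have e2 : E i x = (v 1 - v 0 + ((w 1 - v 1) - (w 0 - v 0))) *
        (v i - v 0 + r * (x i * d i - x 0 * d 0) + (e i - e 0))
        - (v i - v 0 + ((w i - v i) - (w 0 - v 0))) *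
        (v 1 - v 0 + r * (x 1 * d 1 - x 0 * d 0) + (e 1 - e 0)) := by
      simp only [hE, he]; ring
    rw [e2]
    exact b
  have hrc : (r : ℂ) ≠ 0 := by exact_mod_cast hr0.ne'
  have hclose : ∀ x : Fin 4 → ℝ, (∀ i, |x i| ≤ 1) →
      ‖Φ x - L.toContinuousLinearEquiv x‖ ≤ η₁ := by
    intro x hx
    rw [hLx]
    have key : ∀ i, ‖(r : ℂ)⁻¹ * E i x - ((v 1 - v 0) * (x i * d i - x 0 * d 0)
        - (v i - v 0) * (x 1 * d 1 - x 0 * d 0))‖ ≤ η₁ := by
      intro i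
      have e3 : (r : ℂ)⁻¹ * E i x - ((v 1 - v 0) * (x i * d i - x 0 * d 0)
          - (v i - v 0) * (x 1 * d 1 - x 0 * d 0))
          = (r : ℂ)⁻¹ * (E i x - r * ((v 1 - v 0) * (x i * d i - x 0 * d 0)
          - (v i - v 0) * (x 1 * d 1 - x 0 * d 0))) := by
        field_simp
      rw [e3, norm_mul, norm_inv, Complex.norm_real, Real.norm_eq_abs, abs_of_pos hr0]
      have := hdiff i x hx
      rw [inv_mul_le_iff₀ hr0]
      nlinarith
    rw [Prod.norm_def]
    exact max_le (key 2) (key 3)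
  obtain ⟨x, hx, hx0⟩ := hz Φ hΦc hclose
  have z2 : E 2 x = 0 := by
    have : (r : ℂ)⁻¹ * E 2 x = 0 := congrArg Prod.fst hx0
    rcases mul_eq_zero.mp this with h1 | h1
    · exact absurd h1 (inv_ne_zero hrc)
    · exact h1
  have z3 : E 3 x = 0 := by
    have : (r : ℂ)⁻¹ * E 3 x = 0 := congrArg Prod.snd hx0
    rcases mul_eq_zero.mp this with h1 | h1
    · exact absurd h1 (inv_ne_zero hrc)
    · exact h1
  have hw10 : w 1 - w 0 ≠ 0 := by
    intro h0
    have e4 : v 1 - v 0 = -((w 1 - v 1) - (w 0 - v 0)) := by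
      linear_combination h0
    have : ‖v 1 - v 0‖ ≤ 2 * (η * r) := by
      rw [e4, norm_neg]
      exact (norm_sub_le _ _).trans (by have := hw 1; have := hw 0; linarith)
    nlinarith
  have hh10 : h 1 (x 1) - h 0 (x 0) ≠ 0 := by
    intro h0
    have e4 : v 1 - v 0 = -(r * (x 1 * d 1) - r * (x 0 * d 0)
        + ((h 1 (x 1) - (v 1 + x 1 * r * d 1)) - (h 0 (x 0) - (v 0 + x 0 * r * d 0)))) := by
      linear_combination h0
    have hxd : ∀ j, ‖(r : ℂ) * ((x j : ℂ) * d j)‖ ≤ r * M := by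
      intro j
      rw [norm_mul, norm_mul, Complex.norm_real, Complex.norm_real, Real.norm_eq_abs,
        Real.norm_eq_abs, abs_of_pos hr0]
      apply mul_le_mul_of_nonneg_left _ hr0.le
      have := hdM j
      have := norm_nonneg (d j)
      have := hx j
      have := abs_nonneg (x j)
      nlinarith
    have : ‖v 1 - v 0‖ ≤ (r * M + r * M) + (η * r + η * r) := by
      rw [e4, norm_neg]
      refine (norm_add_le _ _).trans ?_
      gcongr
      · exact (norm_sub_le _ _).trans (add_le_add (hxd 1) (hxd 0))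
      · exact (norm_sub_le _ _).trans (add_le_add (hh 1 _ (hx 1)) (hh 0 _ (hx 0)))
    nlinarith
  refine ⟨x, hx, (h 1 (x 1) - h 0 (x 0)) / (w 1 - w 0),
    h 0 (x 0) - (h 1 (x 1) - h 0 (x 0)) / (w 1 - w 0) * w 0, div_ne_zero hh10 hw10, ?_⟩
  intro i
  fin_cases i
  · show h 0 (x 0) = _
    simp
  · show h 1 (x 1) = (h 1 (x 1) - h 0 (x 0)) / (w 1 - w 0) * w 1
      + (h 0 (x 0) - (h 1 (x 1) - h 0 (x 0)) / (w 1 - w 0) * w 0)
    field_simp
    ring
  · show h 2 (x 2) = (h 1 (x 1) - h 0 (x 0)) / (w 1 - w 0) * w 2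
      + (h 0 (x 0) - (h 1 (x 1) - h 0 (x 0)) / (w 1 - w 0) * w 0)
    have : (w 1 - w 0) * (h 2 (x 2) - h 0 (x 0)) - (w 2 - w 0) * (h 1 (x 1) - h 0 (x 0)) = 0 := z2
    field_simp
    linear_combination this
  · show h 3 (x 3) = (h 1 (x 1) - h 0 (x 0)) / (w 1 - w 0) * w 3
      + (h 0 (x 0) - (h 1 (x 1) - h 0 (x 0)) / (w 1 - w 0) * w 0)
    have : (w 1 - w 0) * (h 3 (x 3) - h 0 (x 0)) - (w 3 - w 0) * (h 1 (x 1) - h 0 (x 0)) = 0 := z3
    field_simp
    linear_combination this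

end Pool.Agent.Typ
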