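import Pool.Agent.Lib.MP_2fd4e2_co.Typ.Discs

/-!
Every Jordan curve is close to one whose small arc robustly contains a similar copy of four points.
-/

set_option autoImplicit false

namespace Pool.Agent.Typ

open Complex Set Filter Topology Metric

/-- the points `w` are inscribed, in this order, in the arc of `f` over `(a, b)` -/
def Ins (f : C(UnitAddCircle, ℂ)) (w : Fin 4 → ℂ) (a b : ℝ) : Prop :=
  ∃ α β : ℂ, α ≠ 0 ∧ ∃ t : Fin 4 → ℝ, StrictMono t ∧
    ∀ i, t i ∈ Ioo a b ∧ f (t i : UnitAddCircle) = α * w i + β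

theorem exists_discs_lt (f : C(UnitAddCircle, ℂ)) (hf : Function.Injective f) {a b : ℝ}
    (hab : a < b) (hb : b < a + 1) {ε : ℝ} (hε : 0 < ε) :
    ∃ s0 s1 : ℝ, a < s0 ∧ s0 < s1 ∧ s1 < b ∧ ∃ (w0 w1 y : ℂ) (r0 r1 : ℝ),
      ‖f (s0 : UnitAddCircle) - w0‖ ≤ r0 ∧ ‖f (s1 : UnitAddCircle) - w1‖ ≤ r1 ∧
      ‖y - w0‖ < r0 ∧ ‖y - w1‖ < r1 ∧
      ∀ z : ℂ, ‖z - w0‖ < r0 ∨ ‖z - w1‖ < r1 →
        z ∉ range f ∧ ‖z - f (((a + b) / 2 : ℝ) : UnitAddCircle)‖ < ε := by
  obtain ⟨s0, hs0, s1, hs1, hne, w0, w1, y, r0, r1, h1, h2, h3, h4, h5⟩ :=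
    exists_discs f hf hab hb hε
  rcases lt_or_gt_of_ne hne with h | h
  · exact ⟨s0, s1, hs0.1, h, hs1.2, w0, w1, y, r0, r1, h1, h2, h3, h4, h5⟩
  · exact ⟨s1, s0, hs1.1, h, hs0.2, w1, w0, y, r1, r0, h2, h1, h4, h3,
      fun z hz => h5 z hz.symm⟩

/-- replacing the arc over `(s0, s1)` by an excursion -/
theorem surgery (f : C(UnitAddCircle, ℂ)) (hf : Function.Injective f) {s0 s1 : ℝ} (h01 : s0 < s1)
    (h1 : s1 < s0 + 1) {E : ℝ → ℂ} (hE : Continuous E) (hEi : InjOn E (Icc 0 2))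
    (hE0 : E 0 = f (s0 : UnitAddCircle)) (hE2 : E 2 = f (s1 : UnitAddCircle))
    (hEo : ∀ x ∈ Ioo (0 : ℝ) 2, E x ∉ range f) :
    ∃ g : C(UnitAddCircle, ℂ), Function.Injective g ∧
      (∀ s ∈ Icc s0 s1, g (s : UnitAddCircle) = E (2 * (s - s0) / (s1 - s0))) ∧
      ∀ s, s1 ≤ s → s < s0 + 1 → g (s : UnitAddCircle) = f (s : UnitAddCircle) := by
  have hd : 0 < s1 - s0 := by linarith
  set c : ℝ → ℂ := fun s => f (s : UnitAddCircle) with hc
  have hcc : Continuous c := f.continuous.comp (AddCircle.continuous_mk' 1)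
  set G : ℝ → ℂ := fun x => if x ≤ s1 then E (2 * (x - s0) / (s1 - s0)) else c x with hG
  have hGc : Continuous G := by
    apply Continuous.if_le
    · exact hE.comp (by fun_prop)
    · exact hcc
    · exact continuous_id
    · exact continuous_const
    · intro x hx
      have : 2 * (x - s0) / (s1 - s0) = 2 := by
        rw [hx]; field_simp
      rw [this, hx]
      exact hE2
  have hG1 : ∀ x ≤ s1, G x = E (2 * (x - s0) / (s1 - s0)) := fun x hx => if_pos hx
  have hG2 : ∀ x, s1 ≤ x → G x = c x := by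
    intro x hx
    rcases hx.eq_or_lt with h | h
    · rw [← h, hG1 s1 le_rfl]
      have : 2 * (s1 - s0) / (s1 - s0) = 2 := by field_simp
      rw [this]
      exact hE2
    · exact if_neg (not_le.mpr h)
  have hper : G s0 = G (s0 + 1) := by
    rw [hG1 s0 h01.le, hG2 (s0 + 1) h1.le]
    have : 2 * (s0 - s0) / (s1 - s0) = 0 := by simp
    rw [this, hE0]
    show f (s0 : UnitAddCircle) = f ((s0 + 1 : ℝ) : UnitAddCircle)
    congr 1
    exact (AddCircle.coe_add_period (1 : ℝ) s0).symm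
  have hgc : Continuous (AddCircle.liftIco (1 : ℝ) s0 G) :=
    AddCircle.liftIco_continuous hper hGc.continuousOn
  have hval : ∀ s ∈ Ico s0 (s0 + 1), AddCircle.liftIco (1 : ℝ) s0 G (s : UnitAddCircle) = G s :=
    fun s hs => AddCircle.liftIco_coe_apply hs
  have hsurj : ∀ x : UnitAddCircle, ∃ s ∈ Ico s0 (s0 + 1), (s : UnitAddCircle) = x := by
    intro x
    have : x ∈ ((fun s : ℝ => (s : UnitAddCircle)) '' Ico s0 (s0 + 1)) := by
      have := AddCircle.coe_image_Ico_eq (1 : ℝ) s0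
      rw [this]; trivial
    obtain ⟨s, hs, h⟩ := this
    exact ⟨s, hs, h⟩
  have hpar : ∀ s, s0 ≤ s → s ≤ s1 → 2 * (s - s0) / (s1 - s0) ∈ Icc (0 : ℝ) 2 := by
    intro s h2 h3
    constructor
    · apply div_nonneg _ hd.le
      linarith
    · rw [div_le_iff₀ hd]; linarith
  have hmix : ∀ s s', s0 ≤ s → s ≤ s1 → s1 < s' → s' < s0 + 1 → G s ≠ G s' := by
    intro s s' k1 k2 k3 k4 h
    rw [hG1 s k2, hG2 s' k3.le] at h
    rcases k1.eq_or_lt with k5 | k5
    · have e : 2 * (s - s0) / (s1 - s0) = 0 := by rw [← k5]; simp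
      rw [e, hE0] at h
      have h6 : (s0 : UnitAddCircle) = (s' : UnitAddCircle) := hf h
      have := (AddCircle.coe_eq_coe_iff_of_mem_Ico (p := (1 : ℝ)) (a := s0)
        (⟨le_rfl, by linarith⟩ : s0 ∈ Ico s0 (s0 + 1))
        (⟨by linarith, k4⟩ : s' ∈ Ico s0 (s0 + 1))).mp h6
      linarith
    · rcases k2.eq_or_lt with k6 | k6
      · have e : 2 * (s - s0) / (s1 - s0) = 2 := by rw [k6]; field_simp
        rw [e, hE2] at h
        have h6 : (s1 : UnitAddCircle) = (s' : UnitAddCircle) := hf h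
        have := (AddCircle.coe_eq_coe_iff_of_mem_Ico (p := (1 : ℝ)) (a := s0)
          (⟨h01.le, h1⟩ : s1 ∈ Ico s0 (s0 + 1))
          (⟨by linarith, k4⟩ : s' ∈ Ico s0 (s0 + 1))).mp h6
        linarith
      · apply hEo (2 * (s - s0) / (s1 - s0)) ⟨?_, ?_⟩
        · rw [h]; exact mem_range_self _
        · apply div_pos _ hd; linarith
        · rw [div_lt_iff₀ hd]; linarith
  refine ⟨⟨_, hgc⟩, ?_, ?_, ?_⟩
  · intro x x' h
    obtain ⟨s, hs, rfl⟩ := hsurj x
    obtain ⟨s', hs', rfl⟩ := hsurj x'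
    have h2 : G s = G s' := by
      have : AddCircle.liftIco (1 : ℝ) s0 G (s : UnitAddCircle)
        = AddCircle.liftIco (1 : ℝ) s0 G (s' : UnitAddCircle) := h
      rwa [hval s hs, hval s' hs'] at this
    rcases le_or_gt s s1 with c1 | c1 <;> rcases le_or_gt s' s1 with c2 | c2
    · rw [hG1 s c1, hG1 s' c2] at h2
      have h3 := hEi (hpar s hs.1 c1) (hpar s' hs'.1 c2) h2
      have h4 : s = s' := by
        rw [div_left_inj' hd.ne'] at h3
        linarith
      rw [h4]
    · exact absurd h2 (hmix s s' hs.1 c1 c2 hs'.2)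
    · exact absurd h2.symm (hmix s' s hs'.1 c2 c1 hs.2)
    · rw [hG2 s c1.le, hG2 s' c2.le] at h2
      exact hf h2
  · intro s hs
    show AddCircle.liftIco (1 : ℝ) s0 G (s : UnitAddCircle) = _
    rw [hval s ⟨hs.1, by linarith [hs.2]⟩, hG1 s hs.2]
  · intro s k1 k2
    show AddCircle.liftIco (1 : ℝ) s0 G (s : UnitAddCircle) = _
    rw [hval s ⟨by linarith, k2⟩, hG2 s k1]

theorem dense_open (v : Fin 4 → ℂ) (hv : Function.Injective v) :
    ∃ η > 0, ∀ a b : ℝ, a < b → ∀ f : C(UnitAddCircle, ℂ), Function.Injective f → ∀ ε > 0,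
      ∃ g : C(UnitAddCircle, ℂ), Function.Injective g ∧ dist g f < ε ∧ ∃ ε' > 0,
        ∀ h : C(UnitAddCircle, ℂ), dist h g < ε' → ∀ w : Fin 4 → ℂ, (∀ i, ‖w i - v i‖ < η) →
          Ins h w a b := by
  obtain ⟨e, β₀, he, m, hgood, him, him0⟩ := exists_frame v hv
  set p : Fin 4 → ℂ := fun i => e * v i + β₀ with hp
  have hpi : Function.Injective p := by
    intro i j h
    apply hv
    exact mul_left_cancel₀ he (add_right_cancel h)
  obtain ⟨η₁, hη₁, r₀, hr₀, hrob⟩ := robust p (fun i => ⟨1, m i⟩) hpi hgood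
  obtain ⟨ζ, R, κ, hζc, hζi, hR, hout, hin, hκ, hζp⟩ := exists_path p m him him0
  set r := min r₀ (min κ (1 / 4)) with hr
  have hr0 : 0 < r := by positivity
  have hr1 : r ≤ r₀ := min_le_left _ _
  have hr2 : r ≤ κ := (min_le_right _ _).trans (min_le_left _ _)
  have hr3 : r ≤ 1 / 4 := (min_le_right _ _).trans (min_le_right _ _)
  have hen : 0 < ‖e‖ := norm_pos_iff.mpr he
  refine ⟨η₁ * r / ‖e‖, by positivity, ?_⟩
  intro a b hab f hf ε hε
  set c : ℝ → ℂ := fun s => f (s : UnitAddCircle) with hc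
  have hcc : Continuous c := f.continuous.comp (AddCircle.continuous_mk' 1)
  -- a small interval
  set t := (a + b) / 2 with ht
  obtain ⟨ρ, hρ, hρc⟩ := Metric.continuous_iff.mp hcc t (ε / 4) (by positivity)
  set ρ' := min ρ (min (1 / 4) ((b - a) / 2)) with hρ'
  have hρ'0 : 0 < ρ' := by
    have : 0 < (b - a) / 2 := by linarith
    positivity
  have r1 : ρ' ≤ ρ := min_le_left _ _
  have r2 : ρ' ≤ 1 / 4 := (min_le_right _ _).trans (min_le_left _ _)
  have r3 : ρ' ≤ (b - a) / 2 := (min_le_right _ _).trans (min_le_right _ _)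
  have hmid : ((t - ρ') + (t + ρ')) / 2 = t := by ring
  obtain ⟨s0, s1, hs0, h01, hs1, w0, w1, y, R0, R1, k1, k2, k3, k4, k5⟩ :=
    exists_discs_lt f hf (a := t - ρ') (b := t + ρ') (by linarith) (by linarith)
      (show 0 < ε / 4 by positivity)
  rw [hmid] at k5
  have hsmall : ∀ s, t - ρ' < s → s < t + ρ' → ‖c s - c t‖ < ε / 4 := by
    intro s h1 h2
    rw [← dist_eq_norm]
    apply hρc
    rw [Real.dist_eq, abs_lt]
    constructor <;> linarith
  have hq : f (s0 : UnitAddCircle) ≠ f (s1 : UnitAddCircle) := by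
    intro h
    have h6 : (s0 : UnitAddCircle) = (s1 : UnitAddCircle) := hf h
    have := (AddCircle.coe_eq_coe_iff_of_mem_Ico (p := (1 : ℝ)) (a := s0)
      (⟨le_rfl, by linarith⟩ : s0 ∈ Ico s0 (s0 + 1))
      (⟨h01.le, by linarith⟩ : s1 ∈ Ico s0 (s0 + 1))).mp h6
    linarith
  obtain ⟨z, ⟨hz0, hz1⟩, hz⟩ := exists_off_line hq (isOpen_ball.inter isOpen_ball)
    (show y ∈ ball w0 R0 ∩ ball w1 R1 from
      ⟨by rwa [mem_ball, dist_eq_norm], by rwa [mem_ball, dist_eq_norm]⟩)
  rw [mem_ball, dist_eq_norm] at hz0 hz1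
  obtain ⟨E, A, B, l, hA, hl, hlR, hEc, hEi, hE0, hE2, hEo, hEv⟩ :=
    excursion hz k1 hz0 k2 hz1 hζc hζi hR hout hin
  obtain ⟨g, hgi, hg1, hg2⟩ := surgery f hf h01 (by linarith) hEc hEi hE0 hE2
    (fun x hx => (k5 _ (hEo x hx)).1)
  have hd : 0 < s1 - s0 := by linarith
  have hl5 : l ≤ 1 / 20 := by nlinarith
  have hAn : 0 < ‖A‖ := norm_pos_iff.mpr hA
  refine ⟨g, hgi, ?_, η₁ * r * ‖A‖, by positivity, ?_⟩
  · rw [ContinuousMap.dist_lt_iff hε]
    intro x
    have : x ∈ ((fun s : ℝ => (s : UnitAddCircle)) '' Ico s0 (s0 + 1)) := by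
      have := AddCircle.coe_image_Ico_eq (1 : ℝ) s0
      rw [this]; trivial
    obtain ⟨s, hs, rfl⟩ := this
    show dist (g (s : UnitAddCircle)) (f (s : UnitAddCircle)) < ε
    rcases le_or_gt s1 s with h | h
    · rw [hg2 s h hs.2, dist_self]; exact hε
    · rw [hg1 s ⟨hs.1, h.le⟩]
      rcases hs.1.eq_or_lt with h2 | h2
      · rw [← h2]
        have : 2 * (s0 - s0) / (s1 - s0) = 0 := by simp
        rw [this, hE0, dist_self]
        exact hε
      · have h3 := (k5 _ (hEo (2 * (s - s0) / (s1 - s0)) ⟨by apply div_pos _ hd; linarith,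
          by rw [div_lt_iff₀ hd]; linarith⟩)).2
        have h4 := hsmall s (by linarith) (by linarith)
        rw [dist_eq_norm]
        have e1 : E (2 * (s - s0) / (s1 - s0)) - f (s : UnitAddCircle)
            = (E (2 * (s - s0) / (s1 - s0)) - f (t : UnitAddCircle)) - (c s - c t) := by
          simp only [hc]; ring
        rw [e1]
        refine (norm_sub_le _ _).trans_lt ?_
        linarith
  · intro h hh w hw
    have hT : ∀ (i : Fin 4) (s : ℝ), |s| ≤ 1 →
        0 < 1 / 2 + l * (((i : ℕ) : ℝ) + r * s) ∧ 1 / 2 + l * (((i : ℕ) : ℝ) + r * s) ≤ 1 := by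
      intro i s hs
      have h1 : (((i : ℕ) : ℝ)) ≤ 3 := by
        have : (i : ℕ) ≤ 3 := by omega
        exact_mod_cast this
      have h2 : (0 : ℝ) ≤ ((i : ℕ) : ℝ) := Nat.cast_nonneg _
      rw [abs_le] at hs
      have h3 : r * s ≤ 1 / 4 := by nlinarith
      have h4 : -(1 / 4) ≤ r * s := by nlinarith
      constructor
      · nlinarith
      · nlinarith
    set τ : Fin 4 → ℝ → ℝ := fun i s =>
      s0 + (1 / 2 + l * (((i : ℕ) : ℝ) + r * s)) * (s1 - s0) / 2 with hτ
    have hτm : ∀ (i : Fin 4) (s : ℝ), |s| ≤ 1 → τ i s ∈ Ioo s0 s1 := by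
      intro i s hs
      obtain ⟨h1, h2⟩ := hT i s hs
      simp only [hτ]
      constructor
      · have : 0 < (1 / 2 + l * (((i : ℕ) : ℝ) + r * s)) * (s1 - s0) / 2 := by positivity
        linarith
      · nlinarith
    have hgτ : ∀ (i : Fin 4) (s : ℝ), |s| ≤ 1 →
        g (τ i s : UnitAddCircle) = B + A * (p i + (r * s : ℝ) * ⟨1, m i⟩) := by
      intro i s hs
      have hm := hτm i s hs
      rw [hg1 _ ⟨hm.1.le, hm.2.le⟩]
      have e1 : 2 * (τ i s - s0) / (s1 - s0) = 1 / 2 + l * (((i : ℕ) : ℝ) + r * s) := by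
        simp only [hτ]
        field_simp
        ring
      rw [e1, hEv _ (hT i s hs).2]
      have e2 : (1 / 2 + l * (((i : ℕ) : ℝ) + r * s) - 1 / 2) / l = ((i : ℕ) : ℝ) + r * s := by
        field_simp
        ring
      rw [e2, hζp i (r * s) (by
        rw [abs_mul, abs_of_pos hr0]
        nlinarith [abs_nonneg s])]
    obtain ⟨s, hs, α, β, hα, hfin⟩ := hrob r hr0 hr1 (fun i => e * w i + β₀) (by
        intro i
        have e1 : e * w i + β₀ - p i = e * (w i - v i) := by simp only [hp]; ring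
        rw [e1, norm_mul]
        have := (hw i).le
        rw [le_div_iff₀ hen] at this
        linarith)
      (fun i s => (h (τ i s : UnitAddCircle) - B) / A) (by
        intro i
        have h1 : Continuous (fun s : ℝ => h (τ i s : UnitAddCircle)) := by
          apply h.continuous.comp
          apply (AddCircle.continuous_mk' (1 : ℝ)).comp
          simp only [hτ]
          fun_prop
        exact (h1.sub continuous_const).div_const A) (by
        intro i s hs
        have e1 : (h (τ i s : UnitAddCircle) - B) / A - (p i + s * r * ⟨1, m i⟩)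
            = (h (τ i s : UnitAddCircle) - g (τ i s : UnitAddCircle)) / A := by
          rw [hgτ i s hs]
          push_cast
          field_simp
          ring
        rw [e1, norm_div, div_le_iff₀ hAn]
        have := ContinuousMap.dist_apply_le_dist (f := h) (g := g) (τ i s : UnitAddCircle)
        rw [dist_eq_norm] at this
        linarith)
    refine ⟨A * α * e, A * α * β₀ + A * β + B, mul_ne_zero (mul_ne_zero hA hα) he,
      fun i => τ i (s i), ?_, ?_⟩
    · intro i j hij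
      have h1 : (((i : ℕ) : ℝ)) + 1 ≤ ((j : ℕ) : ℝ) := by
        have : (i : ℕ) + 1 ≤ (j : ℕ) := hij
        exact_mod_cast this
      have hi := abs_le.mp (hs i)
      have hj := abs_le.mp (hs j)
      have h3 : r * s i ≤ 1 / 4 := by nlinarith
      have h4 : -(1 / 4) ≤ r * s j := by nlinarith
      show s0 + (1 / 2 + l * (((i : ℕ) : ℝ) + r * s i)) * (s1 - s0) / 2
        < s0 + (1 / 2 + l * (((j : ℕ) : ℝ) + r * s j)) * (s1 - s0) / 2
      have h5 : ((i : ℕ) : ℝ) + r * s i < ((j : ℕ) : ℝ) + r * s j := by linarith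
      have h6 : l * (((i : ℕ) : ℝ) + r * s i) < l * (((j : ℕ) : ℝ) + r * s j) :=
        mul_lt_mul_of_pos_left h5 hl
      have h7 : (1 / 2 + l * (((i : ℕ) : ℝ) + r * s i)) * (s1 - s0)
        < (1 / 2 + l * (((j : ℕ) : ℝ) + r * s j)) * (s1 - s0) :=
        mul_lt_mul_of_pos_right (by linarith) hd
      linarith
    · intro i
      have hm := hτm i (s i) (hs i)
      refine ⟨⟨by linarith [hm.1], by linarith [hm.2]⟩, ?_⟩
      have h1 : (h (τ i (s i) : UnitAddCircle) - B) / A = α * (e * w i + β₀) + β := hfin i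
      show h (τ i (s i) : UnitAddCircle) = A * α * e * w i + (A * α * β₀ + A * β + B)
      field_simp at h1
      linear_combination h1

end Pool.Agent.Typ
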